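import Mathlib
import Pool.Agent.Y918.SC.MCube
import Pool.Agent.Y918.RT.Cube

set_option autoImplicit false

/-!
# The cube theorem in several variables, with many directions of small rank
-/

namespace Pool.Agent.Y918.EL

open Module Finset
open Pool.Agent.H301R2.SSE (QB mem_QB)
open Pool.Agent.W245 (IndepOver)
open Pool.Agent.Y918.SC (nGr nRk monE cubeE Ex)

/-- **The cube theorem** for additive variables `A1` and multiplicative variables `M1`. -/
theorem mcubeR (A1 M1 : Type) [Fintype A1] [Fintype M1] [DecidableEq A1] [DecidableEq M1]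
    (N D : ℕ) : ∃ G K : ℕ, 0 < G ∧ 0 < K ∧ ∀ W : Submodule QB ℂ, Module.Finite QB W →
    finrank QB W ≤ N → ∀ (R : ℕ), 0 < R → ∀ (u₀ : A1 → ℂ) (v₀ : M1 → ℂ) (w : Fin G → Fin R → A1 → ℂ)
      (y : Fin G → Fin R → M1 → ℂ),
    (∀ g (γ : A1 → ℂ), γ ≠ 0 →
      K ≤ finrank QB (Submodule.span QB (Set.range (fun i => ∑ a, γ a * w g i a)))) →
    (∀ g i (m : M1 → ℤ), m ≠ 0 → (∀ l, |m l| ≤ D) →
      Transcendental ℚ (Complex.exp (∑ l, (m l : ℂ) * y g i l))) →
    ∃ η : Fin G → Option (Fin R), IndepOver W (monE (D := D)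
      (fun a => u₀ a + ∑ g, (η g).elim 0 (fun i => w g i a))
      (fun l => Complex.exp (v₀ l + ∑ g, (η g).elim 0 (fun i => y g i l)))) := by
  classical
  have hac : IsAlgClosure ℚ QB := algebraicClosure.isAlgClosure ℚ ℂ
  have hacl : IsAlgClosed QB := IsAlgClosure.isAlgClosed ℚ
  set nG : ℕ → ℕ := fun N' => nGr (Fin N') A1 M1 D with hnG
  set nK : ℕ → ℕ := fun N' => nRk (Fin N') A1 M1 D with hnK
  set G : ℕ := 1 + ∑ N' ∈ Finset.range (N + 1), nG N' with hG
  set K : ℕ := 1 + ∑ N' ∈ Finset.range (N + 1), nK N' with hK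
  refine ⟨G, K, by omega, by omega, fun W hW hWN R hR u₀ v₀ w y hw hy => ?_⟩
  obtain ⟨N', hN'⟩ : ∃ N', N' = finrank QB W := ⟨_, rfl⟩
  have hle : nG N' ≤ G := by
    have := Finset.single_le_sum (f := nG) (fun _ _ => Nat.zero_le _)
      (Finset.mem_range.2 (show N' < N + 1 by omega))
    omega
  have hleK : nK N' ≤ K := by
    have := Finset.single_le_sum (f := nK) (fun _ _ => Nat.zero_le _)
      (Finset.mem_range.2 (show N' < N + 1 by omega))
    omega
  let b : Basis (Fin N') QB W := Module.finBasisOfFinrankEq QB W hN'.symm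
  have hb : LinearIndependent QB (fun i => (b i : ℂ)) :=
    b.linearIndependent.map' W.subtype (Submodule.ker_subtype W)
  have hspan : Submodule.span QB (Set.range (fun i => (b i : ℂ))) = W := by
    have h1 : Set.range (fun i => (b i : ℂ)) = W.subtype '' Set.range b := by
      rw [← Set.range_comp]
      rfl
    rw [h1, Submodule.span_image, b.span_eq, Submodule.map_subtype_top]
  have hKne : Nonempty (Fin R) := ⟨⟨0, hR⟩⟩
  let ι : Fin (nG N') → Fin G := Fin.castLE hle
  obtain ⟨η, hη⟩ := cubeE QB ℂ (Fin N') A1 M1 D (Fin R) (fun i => (b i : ℂ)) hb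
    u₀ (fun l => Complex.exp (v₀ l)) (fun _ => Complex.exp_ne_zero _)
    (fun g i a => w (ι g) i a) (fun g i l => Complex.exp (y (ι g) i l))
    (by
      intro g γ hγ
      exact hleK.trans (hw (ι g) γ hγ))
    (fun g i l => Complex.exp_ne_zero _)
    (by
      intro g i e e' hee c c' hc hc' heq
      have h1 : (algebraMap QB ℂ) c ≠ 0 := by
        rw [Ne, FaithfulSMul.algebraMap_eq_zero_iff]
        exact hc
      have hprod : ∀ f : M1 → Fin (D + 1), ∏ l, Complex.exp (y (ι g) i l) ^ (f l : ℕ) =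
          Complex.exp (∑ l, ((f l : ℕ) : ℂ) * y (ι g) i l) := by
        intro f
        rw [Complex.exp_sum]
        refine Finset.prod_congr rfl fun l _ => ?_
        rw [Complex.exp_nat_mul]
      rw [Algebra.smul_def, Algebra.smul_def, hprod, hprod] at heq
      have h2 : Complex.exp (∑ l, ((e l : ℕ) : ℂ) * y (ι g) i l) /
          Complex.exp (∑ l, ((e' l : ℕ) : ℂ) * y (ι g) i l) =
          (algebraMap QB ℂ) c' / (algebraMap QB ℂ) c := by
        rw [div_eq_div_iff (Complex.exp_ne_zero _) h1, mul_comm]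
        exact heq
      rw [← Complex.exp_sub, ← Finset.sum_sub_distrib] at h2
      refine hy (ι g) i (fun l => ((e l : ℕ) : ℤ) - ((e' l : ℕ) : ℤ)) ?_ ?_ ?_
      · intro h0
        apply hee
        funext l
        have h3 := congrFun h0 l
        have h4 : ((e l : ℕ) : ℤ) - ((e' l : ℕ) : ℤ) = 0 := h3
        exact Fin.ext (by omega)
      · intro l
        have h3 := (e l).2
        have h4 := (e' l).2
        rw [abs_le]
        constructor <;> omega
      · have h5 : ∑ l, (((((e l : ℕ) : ℤ) - ((e' l : ℕ) : ℤ) : ℤ)) : ℂ) * y (ι g) i l =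
            ∑ l, (((e l : ℕ) : ℂ) * y (ι g) i l - ((e' l : ℕ) : ℂ) * y (ι g) i l) := by
          refine Finset.sum_congr rfl fun l _ => ?_
          push_cast
          ring
        rw [h5, h2, ← map_div₀]
        exact mem_QB.1 (c' / c).2)
  refine ⟨fun g => if h : (g : ℕ) < nG N' then η ⟨g, h⟩ else none, ?_⟩
  rw [hspan] at hη
  have hsum : ∀ F : Fin G → Fin R → ℂ,
      ∑ g : Fin G, (if h : (g : ℕ) < nG N' then η ⟨g, h⟩ else none).elim 0 (F g) =
        ∑ g, (η g).elim 0 (F (ι g)) := by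
    intro F
    rw [← Finset.sum_filter_add_sum_filter_not Finset.univ (fun g : Fin G => (g : ℕ) < nG N')]
    have h1 : ∑ g ∈ Finset.univ.filter (fun g : Fin G => ¬ (g : ℕ) < nG N'),
        (if h : (g : ℕ) < nG N' then η ⟨g, h⟩ else none).elim 0 (F g) = 0 := by
      refine Finset.sum_eq_zero fun g hg => ?_
      rw [dif_neg (Finset.mem_filter.1 hg).2]
      rfl
    rw [h1, add_zero]
    symm
    refine Finset.sum_bij (fun g _ => ι g) ?_ ?_ ?_ ?_
    · intro g _
      exact Finset.mem_filter.2 ⟨Finset.mem_univ _, g.2⟩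
    · intro g _ g' _ h
      exact Fin.castLE_injective hle h
    · intro g hg
      exact ⟨⟨g, (Finset.mem_filter.1 hg).2⟩, Finset.mem_univ _, Fin.ext rfl⟩
    · intro g _
      have h2 : ((ι g : Fin G) : ℕ) < nG N' := g.2
      rw [dif_pos h2]
      rfl
  have e1 : (fun a => u₀ a + ∑ g : Fin G,
      (if h : (g : ℕ) < nG N' then η ⟨g, h⟩ else none).elim 0 (fun i => w g i a)) =
      (fun a => u₀ a + ∑ g, (η g).elim 0 (fun i => w (ι g) i a)) := by
    funext a
    rw [hsum (fun g i => w g i a)]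
  have e2 : (fun l => Complex.exp (v₀ l + ∑ g : Fin G,
      (if h : (g : ℕ) < nG N' then η ⟨g, h⟩ else none).elim 0 (fun i => y g i l))) =
      (fun l => Complex.exp (v₀ l) * ∏ g, (η g).elim 1 (fun i => Complex.exp (y (ι g) i l))) := by
    funext l
    rw [hsum (fun g i => y g i l), Complex.exp_add, Complex.exp_sum]
    refine congrArg (fun z => Complex.exp (v₀ l) * z) (Finset.prod_congr rfl fun g _ => ?_)
    rcases η g with _ | i
    · exact Complex.exp_zero
    · rfl
  have e3 : IndepOver W (monE (D := D)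
      (fun a => u₀ a + ∑ g : Fin G,
        (if h : (g : ℕ) < nG N' then η ⟨g, h⟩ else none).elim 0 (fun i => w g i a))
      (fun l => Complex.exp (v₀ l + ∑ g : Fin G,
        (if h : (g : ℕ) < nG N' then η ⟨g, h⟩ else none).elim 0 (fun i => y g i l)))) := by
    rw [e1, e2]
    exact hη
  exact e3

end Pool.Agent.Y918.EL
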