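import Mathlib
import Pool.Agent.W245.PB.Gen
import Pool.Agent.Y918.RP.Add
import Pool.Agent.Y918.EL.Cube2

set_option autoImplicit false

/-!
# The rank of the projections of random vectors with two coordinates
-/

namespace Pool.Agent.Y918.EL

open Module Finset
open Pool.Agent.H301R2.SSE (QB mem_QB)
open Pool.Agent.Y918.RP (deg_countF)

open Classical in
/-- One coordinate at a time. -/
theorem one_coord {X : Type} (A : Finset X) {n : ℕ} (j : Fin n) (bad : (Fin n → X) → Prop) (ρ : ℝ)
    (h : ∀ x ∈ Fintype.piFinset (fun _ : Fin n => A),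
      ((A.filter (fun u => bad (Function.update x j u))).card : ℝ) ≤ ρ * A.card) :
    (((Fintype.piFinset fun _ : Fin n => A).filter bad).card : ℝ) ≤ ρ * (A.card : ℝ) ^ n := by
  obtain ⟨m, rfl⟩ : ∃ m, n = m + 1 := ⟨n - 1, by have := j.2; omega⟩
  obtain ⟨P, hP⟩ : ∃ P : Finset (Fin (m + 1) → X), P = Fintype.piFinset (fun _ => A) := ⟨_, rfl⟩
  rw [← hP]
  rcases A.eq_empty_or_nonempty with hA | hA
  · have h0 : P = ∅ := by
      rw [hP, hA, Finset.eq_empty_iff_forall_notMem]
      intro x hx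
      exact absurd (Fintype.mem_piFinset.1 hx j) (Finset.notMem_empty _)
    rw [h0, hA]
    simp
  obtain ⟨S, hS⟩ : ∃ S : Finset ((Fin (m + 1) → X) × X),
      S = (P ×ˢ A).filter (fun q => bad (Function.update q.1 j q.2)) := ⟨_, rfl⟩
  have hA0 : (0 : ℝ) < A.card := by exact_mod_cast hA.card_pos
  have h1 : (S.card : ℝ) ≤ (A.card : ℝ) ^ (m + 1) * (ρ * A.card) := by
    have h2 : S.card = ∑ x ∈ P, (S.filter (fun q => q.1 = x)).card := by
      apply Finset.card_eq_sum_card_fiberwise
      intro q hq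
      rw [hS, Finset.mem_coe, Finset.mem_filter, Finset.mem_product] at hq
      exact hq.1.1
    rw [h2]
    push_cast
    have h3 : ∀ x ∈ P, ((S.filter (fun q => q.1 = x)).card : ℝ) ≤ ρ * A.card := by
      intro x hx
      rw [hP] at hx
      refine le_trans (Nat.cast_le.2 ?_) (h x hx)
      refine Finset.card_le_card_of_injOn (fun q => q.2) ?_ ?_
      · intro q hq
        rw [Finset.mem_coe, Finset.mem_filter, hS, Finset.mem_filter, Finset.mem_product] at hq
        rw [Finset.mem_coe, Finset.mem_filter]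
        refine ⟨hq.1.1.2, ?_⟩
        rw [← hq.2]
        exact hq.1.2
      · intro q hq q' hq' hqq
        rw [Finset.mem_coe, Finset.mem_filter] at hq hq'
        exact Prod.ext (hq.2.trans hq'.2.symm) hqq
    refine (Finset.sum_le_sum h3).trans (le_of_eq ?_)
    rw [Finset.sum_const, nsmul_eq_mul, hP, Fintype.card_piFinset_const]
    push_cast
    rfl
  have h4 : ((P.filter bad).card : ℝ) * A.card ≤ S.card := by
    rw [← Nat.cast_mul, ← Finset.card_product]
    apply Nat.cast_le.2
    refine Finset.card_le_card_of_injOn (fun q => (Function.update q.1 j q.2, q.1 j)) ?_ ?_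
    · intro q hq
      rw [Finset.mem_coe, Finset.mem_product, Finset.mem_filter, hP, Fintype.mem_piFinset] at hq
      rw [Finset.mem_coe, hS, Finset.mem_filter, Finset.mem_product, hP, Fintype.mem_piFinset]
      refine ⟨⟨fun i => ?_, hq.1.1 j⟩, ?_⟩
      · change Function.update q.1 j q.2 i ∈ A
        by_cases hij : i = j
        · rw [hij, Function.update_self]
          exact hq.2
        · rw [Function.update_of_ne hij]
          exact hq.1.1 i
      · change bad (Function.update (Function.update q.1 j q.2) j (q.1 j))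
        rw [Function.update_idem, Function.update_eq_self]
        exact hq.1.2
    · intro q hq q' hq' hqq
      have e1 := (Prod.ext_iff.1 hqq).1
      have e2 := (Prod.ext_iff.1 hqq).2
      simp only at e1 e2
      have e3 : q.1 = q'.1 := by
        funext i
        by_cases hij : i = j
        · subst hij
          exact e2
        · have := congrFun e1 i
          rwa [Function.update_of_ne hij, Function.update_of_ne hij] at this
      have e4 : q.2 = q'.2 := by
        have := congrFun e1 j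
        rwa [Function.update_self, Function.update_self] at this
      exact Prod.ext e3 e4
  have h5 : ((P.filter bad).card : ℝ) * A.card ≤ (ρ * (A.card : ℝ) ^ (m + 1)) * A.card := by
    refine (h4.trans h1).trans (le_of_eq ?_)
    ring
  exact le_of_mul_le_mul_right h5 hA0

/-- The projection. -/
noncomputable def dot (γ v : Fin 2 → ℂ) : ℂ := ∑ b, γ b * v b

theorem dot_smul (s : ℂ) (γ v : Fin 2 → ℂ) : dot (s • γ) v = s * dot γ v := by
  unfold dot
  rw [Finset.mul_sum]
  refine Finset.sum_congr rfl fun b _ => ?_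
  rw [Pi.smul_apply, smul_eq_mul, mul_assoc]

theorem dot_sub (γ v w : Fin 2 → ℂ) : dot γ (v - w) = dot γ v - dot γ w := by
  unfold dot
  rw [← Finset.sum_sub_distrib]
  refine Finset.sum_congr rfl fun b _ => ?_
  rw [Pi.sub_apply, mul_sub]

/-- The rank of the projections of vectors. -/
noncomputable def rk {I : Type} (γ : Fin 2 → ℂ) (d : I → Fin 2 → ℂ) : ℕ :=
  finrank QB (Submodule.span QB (Set.range fun i => dot γ (d i)))

theorem rk_smul {I : Type} {s : ℂ} (hs : s ≠ 0) (γ : Fin 2 → ℂ) (d : I → Fin 2 → ℂ) :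
    rk (s • γ) d = rk γ d := by
  unfold rk
  have h1 : (Set.range fun i => dot (s • γ) (d i)) =
      (LinearMap.mulLeft QB s) '' (Set.range fun i => dot γ (d i)) := by
    rw [← Set.range_comp]
    congr 1
    funext i
    rw [dot_smul]
    rfl
  rw [h1, ← Submodule.map_span]
  exact (LinearEquiv.finrank_eq (Submodule.equivMapOfInjective (LinearMap.mulLeft QB s)
    (mul_right_injective₀ hs) _)).symm

/-- There is at most one exceptional projection. -/
theorem uniq {K : ℕ} {d : Fin (2 * K - 1) → Fin 2 → ℂ} (hd : LinearIndependent QB (fun i => d i 0))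
    {γ γ' : Fin 2 → ℂ} (hγ : γ ≠ 0) (hγ' : γ' ≠ 0) (h : rk γ d < K) (h' : rk γ' d < K) :
    ∃ s : ℂ, s ≠ 0 ∧ γ = s • γ' := by
  obtain ⟨T, hT⟩ : ∃ T : (Fin 2 → ℂ) → (Fin (2 * K - 1) → QB) →ₗ[QB] ℂ,
      T = fun γ => Fintype.linearCombination QB (fun i => dot γ (d i)) := ⟨_, rfl⟩
  have hker : ∀ γ : Fin 2 → ℂ, rk γ d < K → K ≤ finrank QB (LinearMap.ker (T γ)) := by
    intro γ h
    have h1 := LinearMap.finrank_range_add_finrank_ker (T γ)
    rw [Module.finrank_fintype_fun_eq_card, Fintype.card_fin] at h1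
    have h2 : finrank QB (LinearMap.range (T γ)) = rk γ d := by
      unfold rk
      rw [hT]
      simp only
      rw [Fintype.range_linearCombination]
    omega
  have h1 := hker γ h
  have h2 := hker γ' h'
  have h3 := Submodule.finrank_sup_add_finrank_inf_eq (LinearMap.ker (T γ)) (LinearMap.ker (T γ'))
  have h4 : finrank QB (LinearMap.ker (T γ) ⊔ LinearMap.ker (T γ') :
      Submodule QB (Fin (2 * K - 1) → QB)) ≤ 2 * K - 1 := by
    have := Submodule.finrank_le (LinearMap.ker (T γ) ⊔ LinearMap.ker (T γ'))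
    rwa [Module.finrank_fintype_fun_eq_card, Fintype.card_fin] at this
  have h5 : (LinearMap.ker (T γ) ⊓ LinearMap.ker (T γ') :
      Submodule QB (Fin (2 * K - 1) → QB)) ≠ ⊥ := by
    intro h0
    rw [h0, finrank_bot] at h3
    omega
  obtain ⟨c, hc, hc0⟩ := Submodule.exists_mem_ne_zero_of_ne_bot h5
  have hsum : ∀ γ : Fin 2 → ℂ, c ∈ LinearMap.ker (T γ) →
      γ 0 * (∑ i, c i • d i 0) + γ 1 * (∑ i, c i • d i 1) = 0 := by
    intro γ hγc
    rw [LinearMap.mem_ker, hT] at hγc
    simp only [Fintype.linearCombination_apply] at hγc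
    rw [← hγc, Finset.mul_sum, Finset.mul_sum, ← Finset.sum_add_distrib]
    refine Finset.sum_congr rfl fun i _ => ?_
    unfold dot
    rw [Fin.sum_univ_two, smul_add, mul_smul_comm, mul_smul_comm]
  have e1 := hsum γ (Submodule.mem_inf.1 hc).1
  have e2 := hsum γ' (Submodule.mem_inf.1 hc).2
  obtain ⟨v, hv⟩ : ∃ v : ℂ, v = ∑ i, c i • d i 0 := ⟨_, rfl⟩
  obtain ⟨w, hw⟩ : ∃ w : ℂ, w = ∑ i, c i • d i 1 := ⟨_, rfl⟩
  rw [← hv, ← hw] at e1 e2
  have hv0 : v ≠ 0 := by
    intro h0
    apply hc0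
    rw [hv] at h0
    exact funext (Fintype.linearIndependent_iff.1 hd c h0)
  have hne : ∀ γ : Fin 2 → ℂ, γ ≠ 0 → γ 0 * v + γ 1 * w = 0 → γ 1 ≠ 0 := by
    intro γ hγ h0 h1
    apply hγ
    rw [h1, zero_mul, add_zero] at h0
    funext b
    fin_cases b
    · exact (mul_eq_zero.1 h0).resolve_right hv0
    · exact h1
  have hn := hne γ hγ e1
  have hn' := hne γ' hγ' e2
  refine ⟨γ 1 / γ' 1, div_ne_zero hn hn', ?_⟩
  funext b
  rw [Pi.smul_apply, smul_eq_mul]
  fin_cases b
  · change γ 0 = γ 1 / γ' 1 * γ' 0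
    have e3 : γ 0 = - γ 1 * w / v := by
      rw [eq_div_iff hv0]
      linear_combination e1
    have e4 : γ' 0 = - γ' 1 * w / v := by
      rw [eq_div_iff hv0]
      linear_combination e2
    rw [e3, e4]
    field_simp
  · change γ 1 = γ 1 / γ' 1 * γ' 1
    field_simp

open Classical in
/-- The exceptional projection. -/
noncomputable def star {K : ℕ} (d : Fin (2 * K - 1) → Fin 2 → ℂ) : Fin 2 → ℂ :=
  if h : ∃ γ : Fin 2 → ℂ, γ ≠ 0 ∧ rk γ d < K then h.choose else 1

theorem star_ne {K : ℕ} (d : Fin (2 * K - 1) → Fin 2 → ℂ) : star (K := K) d ≠ 0 := by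
  unfold star
  split_ifs with h
  · exact h.choose_spec.1
  · exact one_ne_zero

/-- The span of the first projections. -/
noncomputable def pre {R : ℕ} (γ : Fin 2 → ℂ) (d : Fin R → Fin 2 → ℂ) (t : ℕ) :
    Submodule QB ℂ :=
  Submodule.span QB ((fun i => dot γ (d i)) '' {i : Fin R | (i : ℕ) < t})

instance pre_finite {R : ℕ} (γ : Fin 2 → ℂ) (d : Fin R → Fin 2 → ℂ) (t : ℕ) :
    Module.Finite QB (pre γ d t) :=
  FiniteDimensional.span_of_finite QB ((Set.toFinite _).image _)

theorem pre_le {R : ℕ} (γ : Fin 2 → ℂ) (d : Fin R → Fin 2 → ℂ) (t : ℕ) :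
    finrank QB (pre γ d t) ≤ rk γ d := by
  have hfin : Module.Finite QB (Submodule.span QB (Set.range fun i => dot γ (d i))) :=
    FiniteDimensional.span_of_finite QB (Set.finite_range _)
  exact Submodule.finrank_mono (Submodule.span_mono (Set.image_subset_range _ _))

theorem pre_succ {R : ℕ} (γ : Fin 2 → ℂ) (d : Fin R → Fin 2 → ℂ) (t : Fin R) :
    pre γ d ((t : ℕ) + 1) = pre γ d t ⊔ Submodule.span QB {dot γ (d t)} := by
  unfold pre
  rw [← Submodule.span_union]
  congr 1
  ext z
  constructor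
  · rintro ⟨i, hi, rfl⟩
    have hi' : (i : ℕ) < t + 1 := hi
    rcases Nat.lt_or_ge (i : ℕ) t with h | h
    · exact Or.inl ⟨i, h, rfl⟩
    · right
      have h2 : i = t := Fin.ext (by omega)
      rw [h2]
      rfl
  · rintro (⟨i, hi, rfl⟩ | h)
    · have hi' : (i : ℕ) < t := hi
      exact ⟨i, show (i : ℕ) < t + 1 by omega, rfl⟩
    · rw [Set.mem_singleton_iff] at h
      exact ⟨t, show (t : ℕ) < t + 1 by omega, h.symm⟩

/-- The first vectors. -/
def beg {K : ℕ} (d : Fin (3 * K - 1) → Fin 2 → ℂ) : Fin (2 * K - 1) → Fin 2 → ℂ :=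
  fun i => d ⟨(i : ℕ), by omega⟩

theorem rk_beg {K : ℕ} (γ : Fin 2 → ℂ) (d : Fin (3 * K - 1) → Fin 2 → ℂ) :
    rk γ (beg d) ≤ rk γ d := by
  unfold rk
  have hfin : Module.Finite QB (Submodule.span QB (Set.range fun i => dot γ (d i))) :=
    FiniteDimensional.span_of_finite QB (Set.finite_range _)
  apply Submodule.finrank_mono
  apply Submodule.span_mono
  rintro _ ⟨i, rfl⟩
  exact ⟨_, rfl⟩

/-- The vectors are in general position. -/
theorem good {K : ℕ} (hK : 0 < K) {d : Fin (3 * K - 1) → Fin 2 → ℂ}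
    (hd : LinearIndependent QB (fun i => d i 0))
    (hstep : ∀ i : Fin (3 * K - 1), 2 * K - 1 ≤ (i : ℕ) →
      finrank QB (pre (star (K := K) (beg d)) d i) < K →
      dot (star (K := K) (beg d)) (d i) ∉ pre (star (K := K) (beg d)) d i)
    {γ : Fin 2 → ℂ} (hγ : γ ≠ 0) : K ≤ rk γ d := by
  by_contra hcon
  push Not at hcon
  have h1 : rk γ (beg d) < K := (rk_beg γ d).trans_lt hcon
  obtain ⟨γ', hγ'⟩ : ∃ γ' : Fin 2 → ℂ, γ' = star (K := K) (beg d) := ⟨_, rfl⟩
  have hex : ∃ γ : Fin 2 → ℂ, γ ≠ 0 ∧ rk γ (beg d) < K := ⟨γ, hγ, h1⟩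
  have h2 : rk γ' (beg d) < K := by
    rw [hγ']
    unfold star
    rw [dif_pos hex]
    exact hex.choose_spec.2
  have h3 : γ' ≠ 0 := by
    rw [hγ']
    exact star_ne _
  rw [← hγ'] at hstep
  have hdb : LinearIndependent QB (fun i => beg d i 0) :=
    hd.comp (fun i : Fin (2 * K - 1) => (⟨(i : ℕ), by omega⟩ : Fin (3 * K - 1)))
      (fun i j h => Fin.ext (Fin.mk.inj h))
  obtain ⟨s, hs, hs2⟩ := uniq hdb hγ h3 h1 h2
  rw [hs2, rk_smul hs] at hcon
  have hgrow : ∀ j : ℕ, j ≤ K → j ≤ finrank QB (pre γ' d (2 * K - 1 + j)) := by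
    intro j
    induction j with
    | zero => intro _; exact Nat.zero_le _
    | succ j ih =>
      intro hj
      have h4 := ih (by omega)
      obtain ⟨t, ht⟩ : ∃ t : Fin (3 * K - 1), (t : ℕ) = 2 * K - 1 + j := ⟨⟨2 * K - 1 + j, by omega⟩, rfl⟩
      rw [← add_assoc, ← ht, pre_succ]
      rw [← ht] at h4
      have h5 : finrank QB (pre γ' d t) < K := (pre_le γ' d t).trans_lt hcon
      have h6 := hstep t (by omega) h5
      rw [Pool.Agent.W245.PB.finrank_sup_span_singleton' h6]
      omega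
  have h7 := hgrow K le_rfl
  have h8 := pre_le γ' d (2 * K - 1 + K)
  omega

open Classical in
/-- **Random vectors are in general position.** -/
theorem two_count {X : Type} (A : Finset X) (val : X → Fin 2 → ℂ) {K : ℕ} (hK : 0 < K) (ρ : ℝ)
    (hρ : 0 ≤ ρ) (h : ∀ γ : Fin 2 → ℂ, γ ≠ 0 → ∀ V : Submodule QB ℂ, Module.Finite QB V →
      finrank QB V < 3 * K - 1 → ∀ y : ℂ,
      ((A.filter (fun u => dot γ (val u) - y ∈ V)).card : ℝ) ≤ ρ * A.card) :
    (((Fintype.piFinset fun _ : Fin (3 * K - 1 + 1) => A).filter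
      (fun x => ¬ ∀ γ : Fin 2 → ℂ, γ ≠ 0 →
        K ≤ rk γ (fun i : Fin (3 * K - 1) => val (x i.succ) - val (x 0)))).card : ℝ) ≤
      (2 * (3 * K - 1 : ℕ)) * ρ * (A.card : ℝ) ^ (3 * K - 1 + 1) := by
  obtain ⟨R, hR⟩ : ∃ R, R = 3 * K - 1 := ⟨_, rfl⟩
  obtain ⟨P, hP⟩ : ∃ P : Finset (Fin (3 * K - 1 + 1) → X), P = Fintype.piFinset (fun _ => A) :=
    ⟨_, rfl⟩
  rw [← hP]
  let D : (Fin (3 * K - 1 + 1) → X) → Fin (3 * K - 1) → Fin 2 → ℂ :=
    fun x i => val (x i.succ) - val (x 0)
  let B1 : (Fin (3 * K - 1 + 1) → X) → Prop := fun x => ¬ LinearIndependent QB (fun i => D x i 0)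
  obtain ⟨B2, hB2⟩ : ∃ B2 : Fin (3 * K - 1) → (Fin (3 * K - 1 + 1) → X) → Prop, ∀ i x, B2 i x ↔
      (2 * K - 1 ≤ (i : ℕ) ∧ finrank QB (pre (star (K := K) (beg (D x))) (D x) i) < K ∧
        dot (star (K := K) (beg (D x))) (D x i) ∈ pre (star (K := K) (beg (D x))) (D x) i) :=
    ⟨_, fun _ _ => Iff.rfl⟩
  have h1 : ((P.filter B1).card : ℝ) ≤ ((3 * K - 1 : ℕ) * ρ) * (A.card : ℝ) ^ (3 * K - 1 + 1) := by
    rw [hP]
    have h2 := deg_countF (F := QB) A (fun u => val u 0) (3 * K - 1) ρ hρ (by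
      intro V hV hVK y
      have h3 := h (Pi.single 0 1) (by
        intro h0
        have := congrFun h0 0
        rw [Pi.single_eq_same] at this
        exact one_ne_zero this) V hV hVK y
      have h4 : ∀ v : Fin 2 → ℂ, dot (Pi.single 0 1) v = v 0 := by
        intro v
        unfold dot
        rw [Fin.sum_univ_two, Pi.single_eq_same, Pi.single_eq_of_ne (by decide)]
        ring
      simp only [h4] at h3
      exact h3)
    exact h2
  have h2 : ∀ i, ((P.filter (B2 i)).card : ℝ) ≤ ρ * (A.card : ℝ) ^ (3 * K - 1 + 1) := by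
    intro i
    rw [hP]
    refine one_coord A i.succ (B2 i) ρ ?_
    intro x hx
    by_cases hi : 2 * K - 1 ≤ (i : ℕ)
    swap
    · rw [Finset.filter_false_of_mem]
      · simp only [Finset.card_empty, Nat.cast_zero]
        positivity
      · intro u _ hu
        exact hi ((hB2 _ _).1 hu).1
    have e1 : ∀ u, ∀ i' : Fin (3 * K - 1), (i' : ℕ) < i →
        D (Function.update x i.succ u) i' = D x i' := by
      intro u i' hi'
      simp only [D]
      rw [Function.update_of_ne, Function.update_of_ne]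
      · intro h0
        exact (Fin.succ_ne_zero i) h0.symm
      · intro h0
        have := Fin.succ_injective _ h0
        rw [this] at hi'
        exact lt_irrefl _ hi'
    have e2 : ∀ u, beg (K := K) (D (Function.update x i.succ u)) = beg (D x) := by
      intro u
      funext j
      exact e1 u _ (by have := j.2; change (j : ℕ) < i; omega)
    have e3 : ∀ u γ, pre γ (D (Function.update x i.succ u)) i = pre γ (D x) i := by
      intro u γ
      unfold pre
      congr 1
      apply Set.image_congr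
      intro i' hi'
      rw [e1 u i' hi']
    have e4 : ∀ u, D (Function.update x i.succ u) i = val u - val (x 0) := by
      intro u
      simp only [D]
      rw [Function.update_self, Function.update_of_ne]
      intro h0
      exact (Fin.succ_ne_zero i) h0.symm
    obtain ⟨γ, hγ⟩ : ∃ γ : Fin 2 → ℂ, γ = star (K := K) (beg (D x)) := ⟨_, rfl⟩
    obtain ⟨V, hV⟩ : ∃ V : Submodule QB ℂ, V = pre γ (D x) i := ⟨_, rfl⟩
    have hVf : Module.Finite QB V := by
      rw [hV]
      infer_instance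
    by_cases hVK : finrank QB V < K
    swap
    · rw [Finset.filter_false_of_mem]
      · simp only [Finset.card_empty, Nat.cast_zero]
        positivity
      · intro u _ hu
        apply hVK
        have h3 := ((hB2 _ _).1 hu).2.1
        rw [e2 u, e3 u, ← hγ, ← hV] at h3
        exact h3
    refine le_trans (Nat.cast_le.2 (Finset.card_le_card ?_))
      (h γ (by rw [hγ]; exact star_ne _) V hVf (by omega) (dot γ (val (x 0))))
    intro u hu
    rw [Finset.mem_filter] at hu ⊢
    refine ⟨hu.1, ?_⟩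
    have h3 := ((hB2 _ _).1 hu.2).2.2
    rw [e2 u, e3 u, e4 u, ← hγ, ← hV, dot_sub] at h3
    exact h3
  have h3 : P.filter (fun x => ¬ ∀ γ : Fin 2 → ℂ, γ ≠ 0 → K ≤ rk γ (D x)) ⊆
      P.filter B1 ∪ (Finset.univ : Finset (Fin (3 * K - 1))).biUnion (fun i => P.filter (B2 i)) := by
    intro x hx
    rw [Finset.mem_filter] at hx
    rw [Finset.mem_union, Finset.mem_biUnion]
    by_contra hcon
    push Not at hcon
    obtain ⟨hc1, hc2⟩ := hcon
    apply hx.2
    intro γ hγ
    refine good hK (d := D x) ?_ ?_ hγ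
    · by_contra hli
      exact hc1 (Finset.mem_filter.2 ⟨hx.1, hli⟩)
    · intro i hi hlt hmem
      exact hc2 i (Finset.mem_univ _) (Finset.mem_filter.2 ⟨hx.1, (hB2 _ _).2 ⟨hi, hlt, hmem⟩⟩)
  refine le_trans (Nat.cast_le.2 ((Finset.card_le_card h3).trans ((Finset.card_union_le _ _).trans
    (add_le_add le_rfl Finset.card_biUnion_le)))) ?_
  push_cast
  have h4 : ∑ i : Fin (3 * K - 1), ((P.filter (B2 i)).card : ℝ) ≤
      ((3 * K - 1 : ℕ) : ℝ) * (ρ * (A.card : ℝ) ^ (3 * K - 1 + 1)) := by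
    refine (Finset.sum_le_sum fun i _ => h2 i).trans (le_of_eq ?_)
    rw [Finset.sum_const, Finset.card_univ, Fintype.card_fin, nsmul_eq_mul]
  refine (add_le_add h1 h4).trans (le_of_eq ?_)
  ring

end Pool.Agent.Y918.EL
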