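import Mathlib
import Pool.Agent.Y918.GB.Sch
import Pool.Agent.Y918.GB.Mat
import Pool.Agent.Y918.EL.Two

set_option autoImplicit false

/-!
# The exceptional parameters of one block with two additive coordinates
-/

namespace Pool.Agent.Y918.EL

open Module Finset
open Pool.Agent.H301R2.SSE (QB mem_QB)
open Pool.Agent.W245 (IndepOver)
open Pool.Agent.Y918.SC (monE Ex)
open Pool.Agent.Y918.RT (card_coset)
open Pool.Agent.Y918.RP (LV mem_LV)
open Pool.Agent.Y918.GB (asm asm_inl asm_inr count winE winE_inl sum_asm_eta)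

open Classical in
/-- **The exceptional parameters of one block with two additive coordinates are rare.** -/
theorem block2 (N D : ℕ) :
    ∃ (G K C : ℕ) (δ : ℝ), 0 < G ∧ 0 < δ ∧ δ ≤ 1 ∧ ∀ (M c : ℕ), c + K ≤ M →
    ∀ (I : Type) [Fintype I] [DecidableEq I] (σ : Fin G × Fin M → I), Function.Injective σ →
    ∀ A : Finset ℚ, A.Nonempty → ∀ W : Submodule QB ℂ, Module.Finite QB W → finrank QB W ≤ N →
    ∀ (ζ : Fin 2 → ℂ) (X : I → Fin 2 → ℂ),
    (∀ g (γ : Fin 2 → ℂ), γ ≠ 0 → ∀ V : Submodule QB ℂ, Module.Finite QB V → finrank QB V < K →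
      finrank ℚ (LV (fun j : Fin M => dot γ (X (σ (g, j)))) V) + c ≤ M) →
    (((Fintype.piFinset fun _ : I => A).filter (fun P => ¬ IndepOver W (monE (D := D)
      (fun a => ζ a + ∑ i, (P i : ℂ) * X i a) (fun _ : Fin 0 => (1 : ℂ))))).card : ℝ) ≤
      C * (A.card : ℝ) ^ ((Fintype.card I : ℝ) - δ * c) := by
  obtain ⟨G, K₀, hG0, hK0, hcube⟩ := mcubeR (Fin 2) (Fin 0) N D
  obtain ⟨K, hK⟩ : ∃ K, K = 3 * K₀ - 1 := ⟨_, rfl⟩
  have hKpos : 0 < K := by omega
  obtain ⟨C₁, hC₁⟩ : ∃ C₁ : ℕ, C₁ = 2 * K + 1 := ⟨_, rfl⟩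
  obtain ⟨e, he⟩ : ∃ e : ℝ, e = (1 / (K + 1 : ℝ)) ^ G := ⟨_, rfl⟩
  have hK1 : (0 : ℝ) < K + 1 := by positivity
  have he0 : 0 < e := by rw [he]; positivity
  have he1 : e ≤ 1 := by
    rw [he]
    apply pow_le_one₀ (by positivity)
    rw [div_le_one hK1]
    have : (0 : ℝ) ≤ K := Nat.cast_nonneg _
    linarith
  refine ⟨G, K, G * C₁, e, hG0, he0, he1, fun M c hcM I _ _ σ hσ A hA W hW hWN ζ X hadd => ?_⟩
  obtain ⟨a, ha⟩ : ∃ a : ℝ, a = (A.card : ℝ) := ⟨_, rfl⟩
  rw [← ha]
  have ha1 : 1 ≤ a := by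
    rw [ha]
    exact_mod_cast hA.card_pos
  have ha0 : 0 < a := by linarith
  have hG1 : (1 : ℝ) ≤ G := by exact_mod_cast hG0
  have hC1 : (1 : ℝ) ≤ C₁ := by
    have : 1 ≤ C₁ := by omega
    exact_mod_cast this
  obtain ⟨ρ, hρ⟩ : ∃ ρ : ℝ, ρ = (a ^ c)⁻¹ := ⟨_, rfl⟩
  have hρ0 : 0 < ρ := by rw [hρ]; positivity
  obtain ⟨θ, hθ⟩ : ∃ θ : ℝ, θ = C₁ * ρ := ⟨_, rfl⟩
  have hθ0 : 0 < θ := by rw [hθ]; positivity
  have hρe : ρ ^ e = a ^ (-(e * c)) := by
    rw [hρ, ← Real.rpow_natCast, ← Real.rpow_neg ha0.le, ← Real.rpow_mul ha0.le]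
    congr 1
    ring
  have hCe : (C₁ : ℝ) ^ e ≤ C₁ := by
    calc (C₁ : ℝ) ^ e ≤ (C₁ : ℝ) ^ (1 : ℝ) := Real.rpow_le_rpow_of_exponent_le hC1 he1
      _ = C₁ := Real.rpow_one _
  have hθe : θ ^ e ≤ C₁ * a ^ (-(e * c)) := by
    rw [hθ, Real.mul_rpow (by linarith) hρ0.le, hρe]
    exact mul_le_mul_of_nonneg_right hCe (Real.rpow_nonneg ha0.le _)
  have hsplit : a ^ ((Fintype.card I : ℝ) - e * c) = a ^ Fintype.card I * a ^ (-(e * c)) := by
    rw [← Real.rpow_natCast, ← Real.rpow_add ha0]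
    congr 1
  have hfin : (G : ℝ) * θ ^ e * a ^ Fintype.card I ≤
      ((G * C₁ : ℕ) : ℝ) * a ^ ((Fintype.card I : ℝ) - e * c) := by
    rw [hsplit]
    push_cast
    calc (G : ℝ) * θ ^ e * a ^ Fintype.card I
        ≤ (G : ℝ) * (C₁ * a ^ (-(e * c))) * a ^ Fintype.card I := by gcongr
      _ = _ := by ring
  obtain ⟨XA, hXA⟩ : ∃ XA : Finset (Fin M → ℚ), XA = Fintype.piFinset fun _ => A := ⟨_, rfl⟩
  have hXAc : (XA.card : ℝ) = a ^ M := by
    rw [hXA, Fintype.card_piFinset_const, ha]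
    push_cast
    rfl
  rcases le_or_gt θ 1 with hθ1 | hθ1
  swap
  · -- trivial case
    refine le_trans (Nat.cast_le.2 (Finset.card_le_card (Finset.filter_subset _ _))) ?_
    have h1 : ((Fintype.piFinset fun _ : I => A).card : ℝ) = a ^ Fintype.card I := by
      rw [Fintype.card_piFinset, Finset.prod_const, Finset.card_univ, ha]
      push_cast
      rfl
    rw [h1]
    refine le_trans ?_ hfin
    have h2 : 1 ≤ θ ^ e := Real.one_le_rpow hθ1.le he0.le
    have h3 : 0 ≤ a ^ Fintype.card I := by positivity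
    calc a ^ Fintype.card I = 1 * 1 * a ^ Fintype.card I := by ring
      _ ≤ (G : ℝ) * θ ^ e * a ^ Fintype.card I := by gcongr
  obtain ⟨val, hval⟩ : ∃ val : Fin G → (Fin M → ℚ) → Fin 2 → ℂ,
      ∀ g u b, val g u b = ∑ j, (u j : ℂ) * X (σ (g, j)) b := ⟨_, fun _ _ _ => rfl⟩
  have hdot : ∀ g γ u, dot γ (val g u) = ∑ j, (u j : ℂ) * dot γ (X (σ (g, j))) := by
    intro g γ u
    unfold dot
    simp only [hval, Finset.mul_sum]
    rw [Finset.sum_comm]
    refine Finset.sum_congr rfl fun j _ => Finset.sum_congr rfl fun b _ => ?_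
    ring
  obtain ⟨badt, hbadt⟩ : ∃ badt : Fin G → (Fin (K + 1) → Fin M → ℚ) → Prop, ∀ g x, badt g x ↔
      ¬ ∀ γ : Fin 2 → ℂ, γ ≠ 0 →
        K₀ ≤ rk γ (fun i : Fin K => val g (x i.succ) - val g (x 0)) := ⟨_, fun _ _ => Iff.rfl⟩
  have hbt : ∀ g, (((Fintype.piFinset fun _ : Fin (K + 1) =>
      Fintype.piFinset fun _ : Fin M => A).filter (badt g)).card : ℝ) ≤
      θ * ((A.card : ℝ) ^ M) ^ (K + 1) := by
    intro g
    rw [← ha, ← hXAc, ← hXA]
    have h1 := two_count XA (val g) hK0 ρ hρ0.le (by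
      intro γ hγ V hV hVK y
      rw [← hK] at hVK
      have h2 : (XA.filter (fun u => dot γ (val g u) - y ∈ V)).card ≤
          A.card ^ finrank ℚ (LV (fun j : Fin M => dot γ (X (σ (g, j)))) V) := by
        rcases (XA.filter (fun u => dot γ (val g u) - y ∈ V)).eq_empty_or_nonempty with
          h0 | ⟨u₀, hu₀⟩
        · rw [h0]
          simp
        refine le_trans (Finset.card_le_card ?_)
          (card_coset (LV (fun j : Fin M => dot γ (X (σ (g, j)))) V) A u₀)
        intro u hu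
        rw [Finset.mem_filter] at hu hu₀ ⊢
        rw [← hXA]
        refine ⟨hu.1, ?_⟩
        rw [mem_LV]
        have h3 := V.sub_mem hu.2 hu₀.2
        have h4 : (dot γ (val g u) - y) - (dot γ (val g u₀) - y) =
            ∑ j, (((u - u₀) j : ℚ) : ℂ) * dot γ (X (σ (g, j))) := by
          rw [hdot, hdot, sub_sub_sub_cancel_right, ← Finset.sum_sub_distrib]
          refine Finset.sum_congr rfl fun j _ => ?_
          rw [Pi.sub_apply]
          push_cast
          ring
        rw [h4] at h3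
        exact h3
      have h5 : ((XA.filter (fun u => dot γ (val g u) - y ∈ V)).card : ℝ) ≤
          a ^ finrank ℚ (LV (fun j : Fin M => dot γ (X (σ (g, j)))) V) := by
        rw [ha]
        exact_mod_cast h2
      refine h5.trans ?_
      rw [hXAc, hρ, inv_mul_eq_div, le_div_iff₀ (by positivity), ← pow_add]
      exact pow_le_pow_right₀ ha1 (hadd g γ hγ V hV hVK))
    rw [← hK] at h1
    refine le_trans (Nat.cast_le.2 (Finset.card_le_card ?_)) (h1.trans ?_)
    · intro x hx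
      rw [Finset.mem_filter] at hx ⊢
      exact ⟨hx.1, (hbadt g x).1 hx.2⟩
    · have h6 : 0 ≤ ρ * (XA.card : ℝ) ^ (K + 1) := by positivity
      rw [hθ, hC₁]
      push_cast
      nlinarith
  have h0 := count (winE σ hσ) A θ hθ0 hθ1 badt (fun g => by convert hbt g)
    (fun P => ¬ IndepOver W (monE (D := D)
      (fun a => ζ a + ∑ i, (P i : ℂ) * X i a) (fun _ : Fin 0 => (1 : ℂ)))) (by
      intro y x hnd
      obtain ⟨η, hη⟩ := hcube W hW hWN K hKpos
        (fun b => ζ b + ∑ i, (asm (winE σ hσ) (fun g => x g 0) y i : ℂ) * X i b)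
        (fun _ : Fin 0 => (0 : ℂ))
        (fun g i b => val g (x g i.succ) b - val g (x g 0) b)
        (fun _ _ _ => (0 : ℂ))
        (by
          intro g γ hγ
          have h1 := hnd g
          rw [hbadt, not_not] at h1
          exact h1 γ hγ)
        (by
          intro g i m hm0
          exact absurd (Subsingleton.elim m 0) hm0)
      refine ⟨fun g => (η g).elim 0 Fin.succ, fun hbad => hbad ?_⟩
      have e1 : ∀ b, ζ b + ∑ i, (asm (winE σ hσ) (fun g => x g ((η g).elim 0 Fin.succ)) y i : ℂ) *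
          X i b = (ζ b + ∑ i, (asm (winE σ hσ) (fun g => x g 0) y i : ℂ) * X i b) +
            ∑ g, (η g).elim 0 (fun i => val g (x g i.succ) b - val g (x g 0) b) := by
        intro b
        rw [sum_asm_eta, ← add_assoc]
        congr 1
        refine Finset.sum_congr rfl fun g _ => ?_
        rcases η g with _ | i
        · rfl
        · simp only [Option.elim_some, hval]
          rw [← Finset.sum_sub_distrib]
          refine Finset.sum_congr rfl fun j _ => ?_
          rw [winE_inl, Pi.sub_apply]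
          push_cast
          ring
      have e3 : (fun b => ζ b + ∑ i, (asm (winE σ hσ)
          (fun g => x g ((η g).elim 0 Fin.succ)) y i : ℂ) * X i b) = _ := funext e1
      rw [e3]
      have e4 : ∀ w : Fin 0 → ℂ, w = (fun _ : Fin 0 => (1 : ℂ)) := fun w => funext fun l => l.elim0
      have e5 := hη
      rw [e4 (fun l => _)] at e5
      exact e5)
  rw [← he, ← ha] at h0
  refine le_trans (le_of_eq ?_) (h0.trans hfin)
  refine congrArg (fun n : ℕ => (n : ℝ)) ?_
  refine congrArg Finset.card ?_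
  ext P
  simp only [Finset.mem_filter]

end Pool.Agent.Y918.EL
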