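import Mathlib
import Pool.Agent.Y918.EL.Blk2

set_option autoImplicit false

/-!
# Pairs of random combinations
-/

namespace Pool.Agent.Y918.EL

open Module Finset
open Pool.Agent.H301R2.SSE (QB mem_QB)
open Pool.Agent.W245 (IndepOver IndepT famExt famExt_finite)
open Pool.Agent.Y918.SC (monE Ex)
open Pool.Agent.Y918.RP (LV mem_LV)
open Pool.Agent.Y918.GB (win win_injective LV_le indep_mon union)

/-- The pair of combinations with the parameters `P`. -/
noncomputable def Z {k : ℕ} (e : Fin 2 → Fin 2 → QB) (x : Fin 2 → Fin k → ℂ) (P : Fin k × Fin 2 → ℚ)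
    (b : Fin 2) : ℂ := ∑ p, (P p : ℂ) * ((e b p.2 : ℂ) * x b p.1)

/-- The span of the projections. -/
theorem span_ge {k M : ℕ} {e : Fin 2 → Fin 2 → QB} (he : e 0 0 * e 1 1 - e 0 1 * e 1 0 ≠ 0)
    {x : Fin 2 → Fin k → ℂ} {γ : Fin 2 → ℂ} (hγ : γ ≠ 0) (τ : Fin M → Fin k)
    (hx : ∀ b, LinearIndependent QB (fun i => x b (τ i))) {J : Type} [Fintype J]
    (ε : J ≃ Fin M × Fin 2) :
    M ≤ finrank QB (Submodule.span QB (Set.range fun j : J =>
      dot γ (fun b => (e b (ε j).2 : ℂ) * x b (τ (ε j).1)))) := by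
  obtain ⟨z, hz⟩ : ∃ z : J → ℂ, z = fun j => dot γ (fun b => (e b (ε j).2 : ℂ) * x b (τ (ε j).1)) :=
    ⟨_, rfl⟩
  rw [← hz]
  have hfin : Module.Finite QB (Submodule.span QB (Set.range z)) :=
    FiniteDimensional.span_of_finite QB (Set.finite_range _)
  have hz2 : ∀ (i : Fin M) (c : Fin 2), z (ε.symm (i, c)) =
      γ 0 * ((e 0 c : ℂ) * x 0 (τ i)) + γ 1 * ((e 1 c : ℂ) * x 1 (τ i)) := by
    intro i c
    rw [hz]
    simp only [Equiv.apply_symm_apply]
    unfold dot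
    rw [Fin.sum_univ_two]
  have hmem : ∀ j, z j ∈ Submodule.span QB (Set.range z) := fun j =>
    Submodule.subset_span ⟨j, rfl⟩
  have hsm : ∀ (q : QB) (w : ℂ), q • w = (q : ℂ) * w := fun q w => rfl
  have hdet : ((e 0 0 : ℂ) * e 1 1 - e 0 1 * e 1 0) ≠ 0 := by
    intro h
    apply he
    apply Subtype.ext
    push_cast
    exact h
  obtain ⟨b, hb⟩ := Function.ne_iff.1 hγ
  have hkey : ∀ i, γ b * x b (τ i) ∈ Submodule.span QB (Set.range z) := by
    intro i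
    have h1 : ∃ q₀ q₁ : QB, γ b * x b (τ i) = q₀ • z (ε.symm (i, 0)) + q₁ • z (ε.symm (i, 1)) := by
      fin_cases b
      · refine ⟨(e 0 0 * e 1 1 - e 0 1 * e 1 0)⁻¹ * e 1 1,
          -((e 0 0 * e 1 1 - e 0 1 * e 1 0)⁻¹ * e 1 0), ?_⟩
        rw [hsm, hsm, hz2, hz2]
        push_cast
        field_simp
        ring
      · refine ⟨-((e 0 0 * e 1 1 - e 0 1 * e 1 0)⁻¹ * e 0 1),
          (e 0 0 * e 1 1 - e 0 1 * e 1 0)⁻¹ * e 0 0, ?_⟩
        rw [hsm, hsm, hz2, hz2]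
        push_cast
        field_simp
        ring
    obtain ⟨q₀, q₁, hq⟩ := h1
    rw [hq]
    exact Submodule.add_mem _ (Submodule.smul_mem _ _ (hmem _)) (Submodule.smul_mem _ _ (hmem _))
  have hli : LinearIndependent QB (fun i => γ b * x b (τ i)) := by
    have h2 := (hx b).map' (LinearMap.mulLeft QB (γ b))
      (LinearMap.ker_eq_bot.2 (mul_right_injective₀ hb))
    exact h2
  have h3 := finrank_span_eq_card hli
  rw [Fintype.card_fin] at h3
  rw [← h3]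
  apply Submodule.finrank_mono
  rw [Submodule.span_le]
  rintro _ ⟨i, rfl⟩
  exact hkey i

open Classical in
/-- **One pair.** -/
theorem pair1 (N D : ℕ) : ∃ (k₀ C : ℕ) (δ : ℝ), 0 < δ ∧ ∀ k ≥ k₀, ∀ x : Fin 2 → Fin k → ℂ,
    (∀ b, LinearIndependent QB (x b)) → ∀ e : Fin 2 → Fin 2 → QB,
    e 0 0 * e 1 1 - e 0 1 * e 1 0 ≠ 0 → ∀ A : Finset ℚ, A.Nonempty →
    ∀ W : Submodule QB ℂ, Module.Finite QB W → finrank QB W ≤ N → ∀ ζ : Fin 2 → ℂ,
    (((Fintype.piFinset fun _ : Fin k × Fin 2 => A).filter (fun P => ¬ IndepOver W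
      (fun f : Fin 2 → Fin (D + 1) => ∏ b, (ζ b + Z e x P b) ^ (f b : ℕ)))).card : ℝ) ≤
      C * (A.card : ℝ) ^ ((2 * k : ℝ) - δ * k) := by
  obtain ⟨G, K, C, δ₀, hG, hδ, hδ1, hb⟩ := block2 N D
  refine ⟨G * (8 * (K + 3)), C, δ₀ / (8 * G), by positivity,
    fun k hk x hx e he A hA W hW hWN ζ => ?_⟩
  obtain ⟨M, hM⟩ : ∃ M, M = k / G := ⟨_, rfl⟩
  have hGM : G * M ≤ k := by rw [hM]; exact Nat.mul_div_le k G
  have hM8 : 8 * (K + 3) ≤ M := by
    rw [hM, Nat.le_div_iff_mul_le hG, mul_comm]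
    exact hk
  have hkM : k < G * (M + 1) := by
    rw [hM]
    exact Nat.lt_mul_div_succ k hG
  obtain ⟨c, hc⟩ : ∃ c, c = M - (K + 2) := ⟨_, rfl⟩
  have hc1 : c + K ≤ M * 2 := by omega
  have h8 : k ≤ 8 * G * c := by
    have h1 : M + 1 ≤ 8 * c := by omega
    calc k ≤ G * (M + 1) := hkM.le
      _ ≤ G * (8 * c) := Nat.mul_le_mul_left _ h1
      _ = 8 * G * c := by ring
  have ha1 : (1 : ℝ) ≤ (A.card : ℝ) := by exact_mod_cast hA.card_pos
  let ε : Fin (M * 2) ≃ Fin M × Fin 2 := finProdFinEquiv.symm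
  let σ : Fin G × Fin (M * 2) → Fin k × Fin 2 := fun p =>
    (win hGM (id : Fin G → Fin G) (p.1, (ε p.2).1), (ε p.2).2)
  have hσ : Function.Injective σ := by
    rintro ⟨g, j⟩ ⟨g', j'⟩ h
    have h1 := (Prod.ext_iff.1 h).1
    have h2 := (Prod.ext_iff.1 h).2
    have h3 := win_injective hGM (τ := (id : Fin G → Fin G)) Function.injective_id h1
    have h4 := (Prod.ext_iff.1 h3).1
    have h5 := (Prod.ext_iff.1 h3).2
    have h6 : ε j = ε j' := Prod.ext h5 h2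
    exact Prod.ext h4 (ε.injective h6)
  have h0 := hb (M * 2) c hc1 (Fin k × Fin 2) σ hσ A hA W hW hWN ζ
    (fun p b => (e b p.2 : ℂ) * x b p.1)
    (by
      intro g γ hγ V hV hVK
      have h1 := LV_le (fun j : Fin (M * 2) =>
        dot γ (fun b => (e b (ε j).2 : ℂ) * x b (win hGM (id : Fin G → Fin G) (g, (ε j).1)))) V
      have h2 := span_ge he hγ (fun i => win hGM (id : Fin G → Fin G) (g, i)) (fun b =>
        (hx b).comp _ (fun j j' h => by
          have := win_injective hGM (τ := (id : Fin G → Fin G)) Function.injective_id h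
          exact (Prod.ext_iff.1 this).2)) ε
      change finrank ℚ (LV (fun j : Fin (M * 2) =>
        dot γ (fun b => (e b (ε j).2 : ℂ) * x b (win hGM (id : Fin G → Fin G) (g, (ε j).1)))) V) +
          c ≤ M * 2
      omega)
  refine le_trans (Nat.cast_le.2 (Finset.card_le_card ?_)) (h0.trans ?_)
  · intro P hP
    rw [Finset.mem_filter] at hP ⊢
    refine ⟨hP.1, fun h => hP.2 ?_⟩
    have h5 := indep_mon (Equiv.sumEmpty (Fin 2) (Fin 0)).symm h
    convert h5 using 3 with f b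
    rfl
  · rw [Fintype.card_prod, Fintype.card_fin, Fintype.card_fin]
    apply mul_le_mul_of_nonneg_left _ (Nat.cast_nonneg _)
    apply Real.rpow_le_rpow_of_exponent_le ha1
    have h1 : (k : ℝ) ≤ 8 * G * c := by exact_mod_cast h8
    have h2 : (0 : ℝ) < G := by exact_mod_cast hG
    have h3 : δ₀ / (8 * G) * k ≤ δ₀ * c := by
      rw [div_mul_eq_mul_div, div_le_iff₀ (by positivity)]
      nlinarith
    push_cast
    linarith

open Classical in
/-- **Several pairs.** -/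
theorem pairs (n N D : ℕ) : ∃ (k₀ C : ℕ) (δ : ℝ), 0 < δ ∧ ∀ k ≥ k₀,
    ∀ x : Fin n → Fin 2 → Fin k → ℂ, (∀ j b, LinearIndependent QB (x j b)) →
    ∀ e : Fin n → Fin 2 → Fin 2 → QB, (∀ j, e j 0 0 * e j 1 1 - e j 0 1 * e j 1 0 ≠ 0) →
    ∀ A : Finset ℚ, A.Nonempty → ∀ W : Submodule QB ℂ, Module.Finite QB W → finrank QB W ≤ N →
    ∀ ζ : Fin n → Fin 2 → ℂ,
    (((Fintype.piFinset fun _ : Fin n => Fintype.piFinset fun _ : Fin k × Fin 2 => A).filter
      (fun P => ¬ IndepT W (fun j (f : Fin 2 → Fin (D + 1)) =>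
        ∏ b, (ζ j b + Z (e j) (x j) (P j) b) ^ (f b : ℕ)))).card : ℝ) ≤
      C * (A.card : ℝ) ^ ((2 * n * k : ℝ) - δ * k) := by
  obtain ⟨k₀, C, δ, hδ, h⟩ := pair1 (N * (Fintype.card (Fin 2 → Fin (D + 1))) ^ n) D
  refine ⟨k₀, n * C, δ, hδ, fun k hk x hx e he A hA W hW hWN ζ => ?_⟩
  obtain ⟨a, ha⟩ : ∃ a : ℝ, a = (A.card : ℝ) := ⟨_, rfl⟩
  have ha1 : 1 ≤ a := by
    rw [ha]
    exact_mod_cast hA.card_pos
  have ha0 : 0 < a := by linarith
  have hXc : ((Fintype.piFinset fun _ : Fin k × Fin 2 => A).card : ℝ) = a ^ (2 * k : ℝ) := by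
    rw [Fintype.card_piFinset, Finset.prod_const, Finset.card_univ, ha, Fintype.card_prod,
      Fintype.card_fin, Fintype.card_fin]
    push_cast
    rw [← Real.rpow_natCast]
    congr 1
    push_cast
    ring
  have h0 := union (E := Fin 2 → Fin (D + 1)) (Fintype.piFinset fun _ : Fin k × Fin 2 => A)
    (C * a ^ (-(δ * k))) (by positivity) (N * (Fintype.card (Fin 2 → Fin (D + 1))) ^ n) n N le_rfl
    W hW hWN (fun j P (f : Fin 2 → Fin (D + 1)) => ∏ b, (ζ j b + Z (e j) (x j) P b) ^ (f b : ℕ))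
    (fun j W' hW' hWN' => by
      refine (h k hk (x j) (hx j) (e j) (he j) A hA W' hW' hWN' (ζ j)).trans (le_of_eq ?_)
      rw [hXc, ← ha, mul_assoc, ← Real.rpow_add ha0]
      congr 2
      ring)
  refine h0.trans (le_of_eq ?_)
  rw [hXc, ← ha, ← Real.rpow_natCast, ← Real.rpow_mul ha0.le]
  push_cast
  rw [mul_assoc (n : ℝ), mul_assoc (C : ℝ), ← Real.rpow_add ha0, mul_assoc (n : ℝ)]
  congr 3
  ring

end Pool.Agent.Y918.EL
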