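import Mathlib
import Pool.Agent.Y918.EL.Pair
import Pool.Agent.Y918.GB.Rel
import Pool.Agent.W245.EB.App
import Pool.Agent.W245.EB.Par

set_option autoImplicit false

/-!
# Random points of elliptic curves with complex multiplication
-/

noncomputable section

namespace Pool.Agent.Y918.EL

open Module Finset
open scoped PeriodPair
open Pool.Agent.W245 (IndepOver IndepT famExt famExt_finite)
open Pool.Agent.Y918.GB (not_relI)
open Pool.Agent.W245.EB (EL EllFam zt NoRelTot zt_comb_CM comb_CM_mem_EL second_indep zt_mul ne_conj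
  alg_of_mul zt_add_QB add_mem_EL)

/-- The field of algebraic numbers. -/
abbrev Qb : IntermediateField ℚ ℂ := algebraicClosure ℚ ℂ

theorem mem_Qb {x : ℂ} : x ∈ Qb ↔ x ∈ Pool.Agent.W245.EB.QB := Iff.rfl

/-- Independence implies the absence of relations of bounded total degree. -/
theorem tot_of_indep {n D : ℕ} {S : Type} [Fintype S] [DecidableEq S] {W : Submodule Qb ℂ}
    {y : Fin n → S → ℂ}
    (h : IndepT W (fun j (e : S → Fin (D + 1)) => ∏ s, y j s ^ (e s : ℕ))) :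
    NoRelTot W D (fun p : Fin n × S => y p.1 p.2) := by
  intro Q h1 h2 h3
  by_contra hQ
  exact not_relI h ⟨Q, hQ, h2, fun i => (MvPolynomial.degreeOf_le_totalDegree Q i).trans h1, h3⟩

/-- The data of one curve with complex multiplication. -/
structure CM where
  /-- the lattice -/
  L : PeriodPair
  g2 : IsAlgebraic ℚ L.g₂
  g3 : IsAlgebraic ℚ L.g₃
  /-- the multiplication -/
  α : ℂ
  hα : α.im ≠ 0
  hm : ∀ w ∈ L.lattice, α * w ∈ L.lattice

/-- The numbers attached to a curve with complex multiplication. -/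
theorem CM.exists_data (d : CM) {k : ℕ} {u : Fin k → ℂ} (hu : EllFam d.L u) :
    ∃ (e : Fin 2 → Fin 2 → Qb) (x : Fin 2 → Fin k → ℂ) (a : Qb),
      e 0 0 * e 1 1 - e 0 1 * e 1 0 ≠ 0 ∧ (∀ b, LinearIndependent Qb (x b)) ∧
      ∀ b ∈ EL d.L, ∀ m : Fin k × Fin 2 → ℤ, ∀ P : Fin k × Fin 2 → ℚ, (∀ p, P p = m p) →
        b + ∑ i, ((m (i, 0) : ℂ) + m (i, 1) * d.α) * u i = b + Z e x P 0 ∧
        ∃ c : Qb, zt d.L (b + ∑ i, ((m (i, 0) : ℂ) + m (i, 1) * d.α) * u i) =
          (zt d.L b - a * b + Z e x P 1) + a * (b + Z e x P 0) + c := by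
  have hα0 : d.α ≠ 0 := by
    intro h
    exact d.hα (by rw [h, Complex.zero_im])
  obtain ⟨Nc, κ', hNc, hκ', hrel⟩ := zt_mul d.g2 d.g3 hα0 d.hm
  have hαQ : d.α ∈ Pool.Agent.W245.EB.QB := Pool.Agent.W245.EB.mem_QB.2 (alg_of_mul d.hm)
  obtain ⟨αs, hαs⟩ : ∃ αs : ℂ, αs = (Nc : ℂ) / d.α := ⟨_, rfl⟩
  have hαsQ : αs ∈ Pool.Agent.W245.EB.QB := by
    rw [hαs]
    exact div_mem (natCast_mem _ _) hαQ
  have hne : d.α - αs ≠ 0 := by
    rw [hαs]
    exact sub_ne_zero.2 (ne_conj d.hα hNc).symm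
  obtain ⟨a₀, ha₀⟩ : ∃ a₀ : ℂ, a₀ = κ' / (d.α - αs) := ⟨_, rfl⟩
  have ha₀Q : a₀ ∈ Pool.Agent.W245.EB.QB := by
    rw [ha₀]
    exact div_mem hκ' (sub_mem hαQ hαsQ)
  have hk : κ' = a₀ * (d.α - αs) := by
    rw [ha₀]
    field_simp
  let αq : Qb := ⟨d.α, hαQ⟩
  let αsq : Qb := ⟨αs, hαsQ⟩
  let aq : Qb := ⟨a₀, ha₀Q⟩
  refine ⟨![![1, αq], ![1, αsq]], ![u, fun i => zt d.L (u i) - a₀ * u i], aq, ?_, ?_, ?_⟩
  · intro h
    apply hne
    have h1 : (1 : Qb) * αsq - αq * 1 = 0 := h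
    rw [one_mul, mul_one] at h1
    have h2 := congrArg (fun z : Qb => (z : ℂ)) h1
    have h3 : αs - d.α = 0 := h2
    linear_combination -h3
  · intro b
    fin_cases b
    · have h1 := second_indep d.g2 d.g3 hu isAlgebraic_zero isAlgebraic_one (Or.inr one_ne_zero)
      have h2 : (fun j => (0 : ℂ) * zt d.L (u j) + 1 * u j) = u := by
        funext j
        ring
      rw [h2] at h1
      exact h1
    · have h1 := second_indep d.g2 d.g3 hu isAlgebraic_one
        (Pool.Agent.W245.EB.mem_QB.1 (neg_mem ha₀Q)) (Or.inl one_ne_zero)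
      have h2 : (fun j => (1 : ℂ) * zt d.L (u j) + (-a₀) * u j) =
          fun i => zt d.L (u i) - a₀ * u i := by
        funext j
        ring
      rw [h2] at h1
      exact h1
  · intro b hb m P hP
    have hZ0 : Z (![![1, αq], ![1, αsq]]) (![u, fun i => zt d.L (u i) - a₀ * u i]) P 0 =
        ∑ i, ((m (i, 0) : ℂ) + m (i, 1) * d.α) * u i := by
      unfold Z
      rw [Fintype.sum_prod_type]
      apply Finset.sum_congr rfl
      intro i _
      rw [Fin.sum_univ_two, hP, hP]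
      have e1 : (((![![1, αq], ![1, αsq]] : Fin 2 → Fin 2 → Qb) 0 1 : Qb) : ℂ) = d.α := rfl
      have e2 : (((![![1, αq], ![1, αsq]] : Fin 2 → Fin 2 → Qb) 0 0 : Qb) : ℂ) = 1 := rfl
      rw [e1, e2, Rat.cast_intCast, Rat.cast_intCast]
      change (m (i, 0) : ℂ) * (1 * u i) + (m (i, 1) : ℂ) * (d.α * u i) = _
      ring
    have hZ1 : Z (![![1, αq], ![1, αsq]]) (![u, fun i => zt d.L (u i) - a₀ * u i]) P 1 =
        ∑ i, ((m (i, 0) : ℂ) + m (i, 1) * αs) * (zt d.L (u i) - a₀ * u i) := by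
      unfold Z
      rw [Fintype.sum_prod_type]
      apply Finset.sum_congr rfl
      intro i _
      rw [Fin.sum_univ_two, hP, hP]
      have e1 : (((![![1, αq], ![1, αsq]] : Fin 2 → Fin 2 → Qb) 1 1 : Qb) : ℂ) = αs := rfl
      have e2 : (((![![1, αq], ![1, αsq]] : Fin 2 → Fin 2 → Qb) 1 0 : Qb) : ℂ) = 1 := rfl
      rw [e1, e2, Rat.cast_intCast, Rat.cast_intCast]
      change (m (i, 0) : ℂ) * (1 * (zt d.L (u i) - a₀ * u i)) +
        (m (i, 1) : ℂ) * (αs * (zt d.L (u i) - a₀ * u i)) = _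
      ring
    rw [hZ0, hZ1]
    refine ⟨rfl, ?_⟩
    obtain ⟨q, hq⟩ : ∃ q : ℂ, q = ∑ i, ((m (i, 0) : ℂ) + m (i, 1) * d.α) * u i := ⟨_, rfl⟩
    have hqE : q ∈ EL d.L := by
      rw [hq]
      exact comb_CM_mem_EL d.g2 d.g3 d.hm hu.1 (fun i => m (i, 0)) (fun i => m (i, 1))
    have h4 := zt_comb_CM d.g2 d.g3 d.hm hrel hu.1 (fun i => m (i, 0)) (fun i => m (i, 1))
    have h5 := zt_add_QB d.g2 d.g3 hb hqE
    rw [← hq] at h4 ⊢
    have h6 := add_mem h4 h5
    refine ⟨⟨_, h6⟩, ?_⟩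
    have h7 : ∑ i, ((m (i, 0) : ℂ) + m (i, 1) * αs) * (zt d.L (u i) - a₀ * u i) + a₀ * q =
        ∑ j, ((m (j, 0) : ℂ) + m (j, 1) * (Nc / d.α)) * zt d.L (u j) +
          κ' * ∑ j, (m (j, 1) : ℂ) * u j := by
      rw [hq, hk, ← hαs, Finset.mul_sum, Finset.mul_sum, ← Finset.sum_add_distrib,
        ← Finset.sum_add_distrib]
      apply Finset.sum_congr rfl
      intro j _
      ring
    change zt d.L (b + q) = zt d.L b - a₀ * b + ∑ i, ((m (i, 0) : ℂ) + m (i, 1) * αs) *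
      (zt d.L (u i) - a₀ * u i) + a₀ * (b + q) + (zt d.L q -
        (∑ j, ((m (j, 0) : ℂ) + m (j, 1) * (Nc / d.α)) * zt d.L (u j) +
          κ' * ∑ j, (m (j, 1) : ℂ) * u j) + (zt d.L (b + q) - zt d.L b - zt d.L q))
    rw [← h7]
    ring

/-- The transformation of the coordinates. -/
theorem transf {n D : ℕ} {W : Submodule Qb ℂ} {y z : Fin n → Fin 2 → ℂ}
    (h : NoRelTot W D (fun p : Fin n × Fin 2 => y p.1 p.2)) (a c : Fin n → Qb)
    (h0 : ∀ j, z j 0 = y j 0) (h1 : ∀ j, z j 1 = y j 1 + a j * y j 0 + c j) :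
    NoRelTot W D (fun p : Fin n × Fin 2 => z p.1 p.2) := by
  have hb : ∀ b : Fin 2, b = 0 ∨ b = 1 := by decide
  have h10 : ¬ ((1 : Fin 2) = 0) := by decide
  have h2 := h.subst
    (fun p : Fin n × Fin 2 => if p.2 = 0 then MvPolynomial.X (p.1, 0) else
      MvPolynomial.X (p.1, 1) + MvPolynomial.C (a p.1) * MvPolynomial.X (p.1, 0) +
        MvPolynomial.C (c p.1))
    (fun p : Fin n × Fin 2 => if p.2 = 0 then MvPolynomial.X (p.1, 0) else
      MvPolynomial.X (p.1, 1) - MvPolynomial.C (a p.1) * MvPolynomial.X (p.1, 0) -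
        MvPolynomial.C (c p.1))
    (by
      rintro ⟨j, b⟩
      rcases hb b with rfl | rfl
      · dsimp only
        rw [if_pos rfl, MvPolynomial.totalDegree_X]
      · dsimp only
        rw [if_neg h10]
        refine (MvPolynomial.totalDegree_add _ _).trans (max_le ?_ ?_)
        · refine (MvPolynomial.totalDegree_add _ _).trans (max_le ?_ ?_)
          · rw [MvPolynomial.totalDegree_X]
          · refine (MvPolynomial.totalDegree_mul _ _).trans ?_
            rw [MvPolynomial.totalDegree_C, MvPolynomial.totalDegree_X]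
        · rw [MvPolynomial.totalDegree_C]
          exact Nat.zero_le _)
    (by
      rintro ⟨j, b⟩
      rcases hb b with rfl | rfl
      · dsimp only
        rw [if_pos rfl, MvPolynomial.bind₁_X_right]
        dsimp only
        rw [if_pos rfl]
      · dsimp only
        rw [if_neg h10, map_add, map_add, map_mul, MvPolynomial.bind₁_X_right,
          MvPolynomial.bind₁_X_right, MvPolynomial.bind₁_C_right, MvPolynomial.bind₁_C_right]
        dsimp only
        rw [if_neg h10, if_pos rfl]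
        ring)
  have h3 : (fun s : Fin n × Fin 2 => MvPolynomial.aeval (fun p : Fin n × Fin 2 => y p.1 p.2)
      (if s.2 = 0 then (MvPolynomial.X (s.1, 0) : MvPolynomial (Fin n × Fin 2) Qb) else
      MvPolynomial.X (s.1, 1) + MvPolynomial.C (a s.1) * MvPolynomial.X (s.1, 0) +
        MvPolynomial.C (c s.1))) = fun p : Fin n × Fin 2 => z p.1 p.2 := by
    funext ⟨j, b⟩
    rcases hb b with rfl | rfl
    · dsimp only
      rw [if_pos rfl, MvPolynomial.aeval_X]
      exact (h0 j).symm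
    · dsimp only
      rw [if_neg h10, map_add, map_add, map_mul, MvPolynomial.aeval_X, MvPolynomial.aeval_X,
        MvPolynomial.aeval_C, MvPolynomial.aeval_C]
      exact (h1 j).symm
  rw [h3] at h2
  exact h2

end Pool.Agent.Y918.EL
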