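import Mathlib
import Pool.Agent.Y918.EL.Ell
import Pool.Agent.Y918.RP.Gel
import Pool.Agent.Y918.RP.Final

set_option autoImplicit false

/-!
# Random points of elliptic curves, integrals of the second kind
-/

noncomputable section

namespace Pool.Agent.Y918.EL

open Module Finset
open scoped PeriodPair
open Pool.Agent.W245 (IndepOver IndepT)
open Pool.Agent.Y918.RP (RelW fine_li tuplesF)
open Pool.Agent.W245.EB (EL EllFam LogFam zt NoRelTot comb_mem_EL comb_CM_mem_EL second_indep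
  zt_comb zt_add_QB add_mem_EL zt_of_mem)

/-- Enlargement of a space by finitely many numbers. -/
def ext {ι : Type} (W : Submodule Qb ℂ) (v : ι → ℂ) : Submodule Qb ℂ :=
  W ⊔ Submodule.span Qb (Set.range v)

theorem le_ext {ι : Type} (W : Submodule Qb ℂ) (v : ι → ℂ) : W ≤ ext W v := le_sup_left

theorem mem_ext {ι : Type} (W : Submodule Qb ℂ) (v : ι → ℂ) (i : ι) : v i ∈ ext W v :=
  (le_sup_right : _ ≤ ext W v) (Submodule.subset_span ⟨i, rfl⟩)

theorem ext_finite {ι : Type} [Fintype ι] (W : Submodule Qb ℂ) [Module.Finite Qb W] (v : ι → ℂ) :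
    Module.Finite Qb (ext W v) := by
  have : Module.Finite Qb (Submodule.span Qb (Set.range v)) :=
    FiniteDimensional.span_of_finite Qb (Set.finite_range _)
  exact Submodule.finite_sup _ _

theorem ext_finrank {ι : Type} [Fintype ι] (W : Submodule Qb ℂ) [Module.Finite Qb W] (v : ι → ℂ) :
    finrank Qb (ext W v) ≤ finrank Qb W + Fintype.card ι := by
  have : Module.Finite Qb (Submodule.span Qb (Set.range v)) :=
    FiniteDimensional.span_of_finite Qb (Set.finite_range _)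
  refine (Submodule.finrank_add_le_finrank_add_finrank _ _).trans ?_
  exact Nat.add_le_add_left (finrank_range_le_card _) _

theorem smul_mem' {W : Submodule Qb ℂ} {x : ℂ} (hx : x ∈ W) {b : ℂ}
    (hb : b ∈ Pool.Agent.W245.EB.QB) : b * x ∈ W := W.smul_mem (⟨b, hb⟩ : Qb) hx

/-- The numbers `1`, the periods and the quasi-periods. -/
def per {n : ℕ} (L : Fin n → PeriodPair) : Option (Fin n × Fin 4) → ℂ
  | none => 1
  | some (j, i) => ![(L j).ω₁, (L j).ω₂, H667R3.eta (L j) (L j).ω₁, H667R3.eta (L j) (L j).ω₂] i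

theorem one_mem_ext {n : ℕ} (W : Submodule Qb ℂ) (L : Fin n → PeriodPair) :
    (1 : ℂ) ∈ ext W (per L) := mem_ext W (per L) none

theorem lat_mem {n : ℕ} (W : Submodule Qb ℂ) (L : Fin n → PeriodPair) (j : Fin n) {ω : ℂ}
    (hω : ω ∈ (L j).lattice) : ω ∈ ext W (per L) := by
  obtain ⟨x, y, h⟩ := PeriodPair.mem_lattice.1 hω
  rw [← h]
  exact Submodule.add_mem _ (smul_mem' (mem_ext W (per L) (some (j, 0))) (intCast_mem _ x))
    (smul_mem' (mem_ext W (per L) (some (j, 1))) (intCast_mem _ y))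

theorem eta_mem {n : ℕ} (W : Submodule Qb ℂ) (L : Fin n → PeriodPair) (j : Fin n) {ω : ℂ}
    (hω : ω ∈ (L j).lattice) : H667R3.eta (L j) ω ∈ ext W (per L) := by
  obtain ⟨x, y, h⟩ := PeriodPair.mem_lattice.1 hω
  have h4 := H667R3.intCast_mul_mem (L j) (L j).ω₁_mem_lattice x
  have h5 := H667R3.intCast_mul_mem (L j) (L j).ω₂_mem_lattice y
  rw [← h, H667R3.eta_add (L j) h4 h5, H667R3.eta_zsmul (L j) (L j).ω₁_mem_lattice,
    H667R3.eta_zsmul (L j) (L j).ω₂_mem_lattice]
  exact Submodule.add_mem _ (smul_mem' (mem_ext W (per L) (some (j, 2))) (intCast_mem _ x))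
    (smul_mem' (mem_ext W (per L) (some (j, 3))) (intCast_mem _ y))

/-- Casting integral parameters. -/
theorem card_cast {J I : Type} [Fintype J] [DecidableEq J] [Fintype I] [DecidableEq I]
    (A : Finset ℤ) (bad : (J → I → ℤ) → Prop) (bad' : (J → I → ℚ) → Prop) [DecidablePred bad]
    [DecidablePred bad'] (h : ∀ m, bad m → bad' (fun j i => (m j i : ℚ))) :
    ((Fintype.piFinset fun _ : J => Fintype.piFinset fun _ : I => A).filter bad).card ≤
      ((Fintype.piFinset fun _ : J => Fintype.piFinset fun _ : I =>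
        A.image (fun z : ℤ => (z : ℚ))).filter bad').card := by
  refine Finset.card_le_card_of_injOn (fun m j i => (m j i : ℚ)) ?_ ?_
  · intro m hm
    rw [Finset.mem_coe, Finset.mem_filter] at hm ⊢
    refine ⟨Fintype.mem_piFinset.2 fun j => Fintype.mem_piFinset.2 fun i => ?_, h m hm.2⟩
    exact Finset.mem_image_of_mem _ (Fintype.mem_piFinset.1 (Fintype.mem_piFinset.1 hm.1 j) i)
  · intro m _ m' _ hmm
    funext j i
    have h1 := congrFun (congrFun hmm j) i
    exact Int.cast_injective h1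

theorem card_image_cast (A : Finset ℤ) : (A.image (fun z : ℤ => (z : ℚ))).card = A.card :=
  Finset.card_image_of_injective _ Int.cast_injective

/-- The random points on curves with complex multiplication. -/
def pt {n k : ℕ} (d : Fin n → CM) (b : Fin n → ℂ) (u : Fin n → Fin k → ℂ)
    (m : Fin n → Fin k × Fin 2 → ℤ) (j : Fin n) : ℂ :=
  b j + ∑ i, ((m j (i, 0) : ℂ) + m j (i, 1) * (d j).α) * u j i

/-- The pairs `p`, `ζ(p)`. -/
def prs {n k : ℕ} (d : Fin n → CM) (b : Fin n → ℂ) (u : Fin n → Fin k → ℂ)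
    (m : Fin n → Fin k × Fin 2 → ℤ) (j : Fin n) (f : Fin 2) : ℂ :=
  if f = 0 then pt d b u m j else zt (d j).L (pt d b u m j)

theorem prs_zero {n k : ℕ} (d : Fin n → CM) (b : Fin n → ℂ) (u : Fin n → Fin k → ℂ)
    (m : Fin n → Fin k × Fin 2 → ℤ) (j : Fin n) : prs d b u m j 0 = pt d b u m j := if_pos rfl

theorem prs_one {n k : ℕ} (d : Fin n → CM) (b : Fin n → ℂ) (u : Fin n → Fin k → ℂ)
    (m : Fin n → Fin k × Fin 2 → ℤ) (j : Fin n) : prs d b u m j 1 = zt (d j).L (pt d b u m j) :=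
  if_neg (by decide)

/-- The conclusion. -/
def Good {n k : ℕ} (d : Fin n → CM) (b : Fin n → ℂ) (u : Fin n → Fin k → ℂ) (W : Submodule Qb ℂ)
    (D : ℕ) (m : Fin n → Fin k × Fin 2 → ℤ) : Prop :=
  (∀ j, pt d b u m j ∉ (d j).L.lattice ∧ pt d b u m j ∈ EL (d j).L) ∧
    NoRelTot W D (Sum.elim (pt d b u m) (fun j => zt (d j).L (pt d b u m j)))

theorem good_of {n k D : ℕ} (d : Fin n → CM) (b : Fin n → ℂ) (u : Fin n → Fin k → ℂ)
    (hu : ∀ j, EllFam (d j).L (u j)) (hb : ∀ j, b j ∈ EL (d j).L)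
    (W : Submodule Qb ℂ) (m : Fin n → Fin k × Fin 2 → ℤ)
    (h : NoRelTot (ext W (per fun j => (d j).L)) (D + 1)
      (fun p : Fin n × Fin 2 => prs d b u m p.1 p.2)) : Good d b u W D m := by
  have hE : ∀ j, pt d b u m j ∈ EL (d j).L := fun j => add_mem_EL (d j).g2 (d j).g3 (hb j)
    (comb_CM_mem_EL (d j).g2 (d j).g3 (d j).hm (hu j).1 (fun i => m j (i, 0))
      (fun i => m j (i, 1)))
  have hn : ∀ j, pt d b u m j ∉ (d j).L.lattice := by
    intro j hj
    apply h.ne (Nat.le_add_left 1 D) (one_mem_ext W _) (j, 0)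
    change prs d b u m j 0 ∈ _
    rw [prs_zero]
    exact lat_mem W (fun j => (d j).L) j hj
  refine ⟨fun j => ⟨hn j, hE j⟩, ?_⟩
  obtain ⟨f, hf⟩ : ∃ f : Fin n ⊕ Fin n → Fin n × Fin 2,
      f = Sum.elim (fun j => (j, 0)) (fun j => (j, 1)) := ⟨_, rfl⟩
  have hfi : Function.Injective f := by
    rw [hf]
    have h01 : (0 : Fin 2) ≠ 1 := by decide
    rintro (i | i) (j | j) hij
    · rw [Sum.elim_inl, Sum.elim_inl] at hij
      have h1 : i = j := (Prod.ext_iff.1 hij).1
      rw [h1]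
    · rw [Sum.elim_inl, Sum.elim_inr] at hij
      have h1 : (0 : Fin 2) = 1 := (Prod.ext_iff.1 hij).2
      exact absurd h1 h01
    · rw [Sum.elim_inl, Sum.elim_inr] at hij
      have h1 : (1 : Fin 2) = 0 := (Prod.ext_iff.1 hij).2
      exact absurd h1.symm h01
    · rw [Sum.elim_inr, Sum.elim_inr] at hij
      have h1 : i = j := (Prod.ext_iff.1 hij).1
      rw [h1]
  have h6 := (h.comp f hfi).mono (le_ext W (per fun j => (d j).L)) (Nat.le_succ D)
  have h8 : (fun i => (fun p : Fin n × Fin 2 => prs d b u m p.1 p.2) (f i)) =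
      Sum.elim (pt d b u m) (fun j => zt (d j).L (pt d b u m j)) := by
    rw [hf]
    funext i
    rcases i with i | i
    · exact prs_zero d b u m i
    · exact prs_one d b u m i
  rw [← h8]
  exact h6

open Classical in
/-- **Random points of curves with complex multiplication.** -/
theorem cmpoints (n D N : ℕ) : ∃ (k₀ C : ℕ) (δ : ℝ), 0 < δ ∧ ∀ k ≥ k₀,
    ∀ (d : Fin n → CM) (u : Fin n → Fin k → ℂ), (∀ j, EllFam (d j).L (u j)) →
    ∀ b : Fin n → ℂ, (∀ j, b j ∈ EL (d j).L) → ∀ A : Finset ℤ, A.Nonempty →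
    ∀ W : Submodule Qb ℂ, Module.Finite Qb W → finrank Qb W ≤ N →
    (((Fintype.piFinset fun _ : Fin n => Fintype.piFinset fun _ : Fin k × Fin 2 => A).filter
      (fun m => ¬ Good d b u W D m)).card : ℝ) ≤
      C * (A.card : ℝ) ^ ((2 * n * k : ℝ) - δ * k) := by
  obtain ⟨k₀, C, δ, hδ, h⟩ := pairs n (N + Fintype.card (Option (Fin n × Fin 4))) (D + 1)
  refine ⟨k₀, C, δ, hδ, fun k hk d u hu b hb A hA W hW hWN => ?_⟩
  choose e x a he hx hZ using fun j => (d j).exists_data (hu j)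
  have hW' : Module.Finite Qb (ext W (per fun j => (d j).L)) := ext_finite W _
  have hWN' : finrank Qb (ext W (per fun j => (d j).L)) ≤
      N + Fintype.card (Option (Fin n × Fin 4)) :=
    (ext_finrank W _).trans (Nat.add_le_add_right hWN _)
  obtain ⟨ζ, hζ0, hζ1⟩ : ∃ ζ : Fin n → Fin 2 → ℂ, (∀ j, ζ j 0 = b j) ∧
      ∀ j, ζ j 1 = zt (d j).L (b j) - a j * b j :=
    ⟨fun j c => if c = 0 then b j else zt (d j).L (b j) - a j * b j, fun j => if_pos rfl,
      fun j => if_neg (by decide)⟩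
  have h1 := h k hk x hx e he (A.image (fun z : ℤ => (z : ℚ))) (hA.image _)
    (ext W (per fun j => (d j).L)) hW' hWN' ζ
  rw [card_image_cast] at h1
  have key : ∀ m : Fin n → Fin k × Fin 2 → ℤ, ¬ Good d b u W D m →
      ¬ IndepT (ext W (per fun j => (d j).L)) (fun j (f : Fin 2 → Fin (D + 1 + 1)) =>
        ∏ c, (ζ j c + Z (e j) (x j) (fun p => (m j p : ℚ)) c) ^ (f c : ℕ)) := by
    intro m hm hI
    apply hm
    obtain ⟨y, hy⟩ : ∃ y : Fin n → Fin 2 → ℂ,
        y = fun j c => ζ j c + Z (e j) (x j) (fun p => (m j p : ℚ)) c := ⟨_, rfl⟩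
    have hy' : ∀ j c, ζ j c + Z (e j) (x j) (fun p => (m j p : ℚ)) c = y j c := by
      intro j c
      rw [hy]
    simp only [hy'] at hI
    have h2 := tot_of_indep hI
    choose h3 c h4 using fun j => hZ j (b j) (hb j) (m j) (fun p => (m j p : ℚ)) (fun p => rfl)
    have h6 : ∀ j, prs d b u m j 0 = y j 0 := by
      intro j
      rw [← hy', hζ0, prs_zero]
      exact h3 j
    have h7 : ∀ j, prs d b u m j 1 = y j 1 + a j * y j 0 + c j := by
      intro j
      rw [← hy', ← hy', hζ0, hζ1, prs_one]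
      exact h4 j
    exact good_of d b u hu hb W m (transf h2 a c h6 h7)
  have h9 := card_cast A (fun m : Fin n → Fin k × Fin 2 → ℤ => ¬ Good d b u W D m)
    (fun P : Fin n → Fin k × Fin 2 → ℚ =>
      ¬ IndepT (ext W (per fun j => (d j).L)) (fun j (f : Fin 2 → Fin (D + 1 + 1)) =>
        ∏ c, (ζ j c + Z (e j) (x j) (P j) c) ^ (f c : ℕ))) key
  exact (Nat.cast_le.2 h9).trans h1

end Pool.Agent.Y918.EL
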