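import Mathlib
import Pool.Agent.Y918.EL.Main

set_option autoImplicit false

/-!
# Random logarithms and random integrals of the second kind
-/

noncomputable section

namespace Pool.Agent.Y918.EL

open Module Finset
open scoped PeriodPair
open Pool.Agent.Y918.RP (RelW fine_li tuplesF)
open Pool.Agent.W245.EB (EL EllFam zt NoRelTot comb_mem_EL second_indep
  zt_comb zt_add_QB add_mem_EL zt_of_mem)

/-- The data of one elliptic curve and one integral of the second kind. -/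
structure SK where
  /-- the lattice -/
  L : PeriodPair
  g2 : IsAlgebraic ℚ L.g₂
  g3 : IsAlgebraic ℚ L.g₃
  /-- the coefficient of `ζ` -/
  σ : ℂ
  /-- the coefficient of `z` -/
  ρ : ℂ
  hσ : IsAlgebraic ℚ σ
  hρ : IsAlgebraic ℚ ρ
  hne : σ ≠ 0 ∨ ρ ≠ 0

/-- The integral of the second kind. -/
def SK.J (d : SK) (z : ℂ) : ℂ := d.σ * zt d.L z + d.ρ * z

/-- The integral at a combination. -/
theorem SK.comb (d : SK) {k : ℕ} {u : Fin k → ℂ} (hu : ∀ i, u i ∈ EL d.L) {b : ℂ} (hb : b ∈ EL d.L)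
    (m : Fin k → ℤ) : ∃ c : Qb, d.J (b + ∑ i, (m i : ℂ) * u i) =
      (d.J b + ∑ i, (m i : ℂ) * d.J (u i)) + c := by
  have h4 := zt_comb d.g2 d.g3 hu m
  have h5 := zt_add_QB d.g2 d.g3 hb (comb_mem_EL d.g2 d.g3 hu m)
  obtain ⟨q, hq⟩ : ∃ q : ℂ, q = ∑ i, (m i : ℂ) * u i := ⟨_, rfl⟩
  rw [← hq] at h4 h5 ⊢
  have h6 := mul_mem (Pool.Agent.W245.EB.mem_QB.2 d.hσ) (add_mem h4 h5)
  refine ⟨⟨_, h6⟩, ?_⟩
  have h7 : ∑ i, (m i : ℂ) * d.J (u i) = d.σ * ∑ i, (m i : ℂ) * zt d.L (u i) + d.ρ * q := by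
    rw [hq, Finset.mul_sum, Finset.mul_sum, ← Finset.sum_add_distrib]
    apply Finset.sum_congr rfl
    intro i _
    unfold SK.J
    ring
  rw [h7]
  change d.σ * zt d.L (b + q) + d.ρ * (b + q) = d.σ * zt d.L b + d.ρ * b +
    (d.σ * ∑ i, (m i : ℂ) * zt d.L (u i) + d.ρ * q) +
    d.σ * (zt d.L q - ∑ j, (m j : ℂ) * zt d.L (u j) + (zt d.L (b + q) - zt d.L b - zt d.L q))
  ring

/-- The random points. -/
def pt2 {s n k : ℕ} (b : Fin n → ℂ) (u : Fin n → Fin k → ℂ) (m : Fin s ⊕ Fin n → Fin k → ℤ)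
    (j : Fin n) : ℂ := b j + ∑ i, (m (Sum.inr j) i : ℂ) * u j i

/-- The random logarithms. -/
def lg2 {s n k : ℕ} (τ : Fin s → ℂ) (a : Fin s → Fin k → ℂ) (m : Fin s ⊕ Fin n → Fin k → ℤ)
    (l : Fin s) : ℂ := τ l + ∑ i, (m (Sum.inl l) i : ℂ) * a l i

/-- The conclusion. -/
def Good2 {s n k : ℕ} (d : Fin n → SK) (τ : Fin s → ℂ) (b : Fin n → ℂ) (a : Fin s → Fin k → ℂ)
    (u : Fin n → Fin k → ℂ) (W : Submodule Qb ℂ) (D : ℕ) (m : Fin s ⊕ Fin n → Fin k → ℤ) : Prop :=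
  (∀ j, pt2 b u m j ∉ (d j).L.lattice ∧ pt2 b u m j ∈ EL (d j).L) ∧
    NoRelTot W D (Sum.elim (lg2 τ a m) (fun j => (d j).J (pt2 b u m j)))

theorem good2_of {s n k D : ℕ} (d : Fin n → SK) (τ : Fin s → ℂ) (b : Fin n → ℂ)
    (a : Fin s → Fin k → ℂ) (u : Fin n → Fin k → ℂ)
    (hu : ∀ j i, u j i ∈ EL (d j).L) (hb : ∀ j, b j ∈ EL (d j).L)
    (W : Submodule Qb ℂ) (m : Fin s ⊕ Fin n → Fin k → ℤ)
    (h : NoRelTot (ext W (per fun j => (d j).L)) (D + 1)
      (Sum.elim (lg2 τ a m) (fun j => (d j).J (b j) + ∑ i, (m (Sum.inr j) i : ℂ) * (d j).J (u j i)))) :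
    Good2 d τ b a u W D m := by
  choose c hc using fun j => (d j).comb (hu j) (hb j) (m (Sum.inr j))
  have h1 := h.shift (Sum.elim (fun _ => 0) c)
  have h2 : (fun i => (Sum.elim (lg2 τ a m)
      (fun j => (d j).J (b j) + ∑ i, (m (Sum.inr j) i : ℂ) * (d j).J (u j i)) :
        Fin s ⊕ Fin n → ℂ) i +
      algebraMap Qb ℂ ((Sum.elim (fun _ => 0) c : Fin s ⊕ Fin n → Qb) i)) =
      Sum.elim (lg2 τ a m) (fun j => (d j).J (pt2 b u m j)) := by
    funext i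
    rcases i with i | i
    · simp only [Sum.elim_inl, map_zero, add_zero]
    · simp only [Sum.elim_inr]
      exact (hc i).symm
  rw [h2] at h1
  have hE : ∀ j, pt2 b u m j ∈ EL (d j).L := fun j => add_mem_EL (d j).g2 (d j).g3 (hb j)
    (comb_mem_EL (d j).g2 (d j).g3 (hu j) (m (Sum.inr j)))
  refine ⟨fun j => ⟨fun hj => ?_, hE j⟩, h1.mono (le_ext W _) (Nat.le_succ D)⟩
  apply h1.ne (Nat.le_add_left 1 D) (one_mem_ext W _) (Sum.inr j)
  rw [Sum.elim_inr]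
  unfold SK.J
  rw [zt_of_mem hj]
  exact Submodule.add_mem _
    (smul_mem' (eta_mem W (fun j => (d j).L) j hj) (Pool.Agent.W245.EB.mem_QB.2 (d j).hσ))
    (smul_mem' (lat_mem W (fun j => (d j).L) j hj) (Pool.Agent.W245.EB.mem_QB.2 (d j).hρ))

open Classical in
/-- **Random logarithms and random integrals of the second kind.** -/
theorem second (s n D N : ℕ) : ∃ (k₀ C : ℕ) (δ : ℝ), 0 < δ ∧ ∀ k ≥ k₀,
    ∀ a : Fin s → Fin k → ℂ, (∀ l, LinearIndependent Qb (a l)) →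
    ∀ (d : Fin n → SK) (u : Fin n → Fin k → ℂ), (∀ j, EllFam (d j).L (u j)) →
    ∀ (τ : Fin s → ℂ) (b : Fin n → ℂ), (∀ j, b j ∈ EL (d j).L) → ∀ A : Finset ℤ, A.Nonempty →
    ∀ W : Submodule Qb ℂ, Module.Finite Qb W → finrank Qb W ≤ N →
    (((Fintype.piFinset fun _ : Fin s ⊕ Fin n => Fintype.piFinset fun _ : Fin k => A).filter
      (fun m => ¬ Good2 d τ b a u W D m)).card : ℝ) ≤
      C * (A.card : ℝ) ^ (((s + n) * k : ℝ) - δ * k) := by
  obtain ⟨k₀, C, δ, hδ, _, h⟩ := tuplesF (D + 1) (s + n) (N + Fintype.card (Option (Fin n × Fin 4)))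
  refine ⟨k₀, C, δ, hδ, fun k hk a ha d u hu τ b hb A hA W hW hWN => ?_⟩
  have hW' : Module.Finite Qb (ext W (per fun j => (d j).L)) := ext_finite W _
  have hWN' : finrank Qb (ext W (per fun j => (d j).L)) ≤
      N + Fintype.card (Option (Fin n × Fin 4)) :=
    (ext_finrank W _).trans (Nat.add_le_add_right hWN _)
  obtain ⟨e, he⟩ : ∃ e : Fin s ⊕ Fin n ≃ Fin (s + n), e = finSumFinEquiv := ⟨_, rfl⟩
  obtain ⟨x, hx⟩ : ∃ x : Fin s ⊕ Fin n → Fin k → ℂ,
      x = Sum.elim a (fun j i => (d j).J (u j i)) := ⟨_, rfl⟩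
  obtain ⟨ζ, hζ⟩ : ∃ ζ : Fin s ⊕ Fin n → ℂ, ζ = Sum.elim τ (fun j => (d j).J (b j)) := ⟨_, rfl⟩
  have hxi : ∀ i, LinearIndependent Qb (x i) := by
    intro i
    rw [hx]
    rcases i with l | j
    · exact ha l
    · exact second_indep (d j).g2 (d j).g3 (hu j) (d j).hσ (d j).hρ (d j).hne
  have h1 := h k hk (A.image (fun z : ℤ => (z : ℚ))) (hA.image _)
    (ext W (per fun j => (d j).L)) hW' hWN'
    (fun q (p : Fin k → ℚ) => ζ (e.symm q) + ∑ i : Fin k, (p i : ℂ) * x (e.symm q) i)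
    (fun q => fine_li (hxi (e.symm q)) (ζ (e.symm q)))
  rw [card_image_cast] at h1
  have h2 : ((((s + n : ℕ) : ℝ) * k : ℝ) - δ * k) = (((s + n) * k : ℝ) - δ * k) := by
    push_cast
    ring
  rw [h2] at h1
  refine le_trans (Nat.cast_le.2 (Finset.card_le_card_of_injOn
    (fun (m : Fin s ⊕ Fin n → Fin k → ℤ) q i => ((m (e.symm q) i : ℤ) : ℚ)) ?_ ?_)) h1
  · intro m hm
    rw [Finset.mem_coe, Finset.mem_filter] at hm ⊢
    refine ⟨Fintype.mem_piFinset.2 fun q => Fintype.mem_piFinset.2 fun i => ?_, ?_⟩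
    · exact Finset.mem_image_of_mem _
        (Fintype.mem_piFinset.1 (Fintype.mem_piFinset.1 hm.1 (e.symm q)) i)
    · by_contra hR
      apply hm.2
      have h3 : NoRelTot (ext W (per fun j => (d j).L)) (D + 1)
          (fun q => ζ (e.symm q) + ∑ i : Fin k, (((m (e.symm q) i : ℤ) : ℚ) : ℂ) *
            x (e.symm q) i) := by
        intro Q hQ1 hQ2 hQ3
        by_contra hQ
        exact hR ⟨Q, hQ, hQ2, fun i => (MvPolynomial.degreeOf_le_totalDegree Q i).trans hQ1, hQ3⟩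
      have h4 := h3.comp e e.injective
      apply good2_of d τ b a u (fun j i => (hu j).1 i) hb W m
      have h5 : (fun i => (fun q => ζ (e.symm q) + ∑ i : Fin k,
          (((m (e.symm q) i : ℤ) : ℚ) : ℂ) * x (e.symm q) i) (e i)) =
          Sum.elim (lg2 τ a m) (fun j => (d j).J (b j) +
            ∑ i, (m (Sum.inr j) i : ℂ) * (d j).J (u j i)) := by
        funext i
        dsimp only
        rw [e.symm_apply_apply, hζ, hx]
        rcases i with l | j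
        · simp only [Sum.elim_inl, Rat.cast_intCast]
          rfl
        · simp only [Sum.elim_inr, Rat.cast_intCast]
      rw [h5] at h4
      exact h4
  · intro m _ m' _ hmm
    funext i r
    have h3 := congrFun (congrFun hmm (e i)) r
    dsimp only at h3
    rw [e.symm_apply_apply] at h3
    exact Int.cast_injective h3

end Pool.Agent.Y918.EL
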